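import Pool.Agent.Lib.MP_c29043_lc.SWC.Spec

/-!
# Covers of digraphs with weights separated inside the strong components: arbitrary lower bounds
-/

set_option autoImplicit false

open N68a2faeb N487b59b3 Pool.Agent.Lib.PolyTime

namespace Pool.Agent.Lib.MP_c29043_lc.SWC

open Pool.Agent.Lib.MP_c29043_lc

/-- **Cmp.** -/
theorem tCmp (h1 : S_Cor) : S_Cmp := by
  intro V A bl hev hsep hV
  have hb1 : ∀ v, vec (tab V fun v => min (vec bl v) (wts A)) v ≤ wts A := by
    intro v
    by_cases hv : v ∈ V
    · rw [vec_tab hv]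
      exact min_le_right _ _
    · rw [vec_tab_zero hv]
      exact Nat.zero_le _
  have hy := h1 V A (tab V fun v => min (vec bl v) (wts A)) hev hsep hV hb1
    (fun v hv => vec_tab_zero hv)
  generalize hz : vec (sol V A (tab V fun v => min (vec bl v) (wts A))) = y at hy
  have hx : ∀ v ∈ V, vec (comp V A bl) v = max (vec bl v) (y v) := by
    intro v hv
    unfold comp
    rw [vec_tab hv, hz]
  have hw : ∀ e ∈ A, e.2 ≤ wts A := fun e he => le_lmax (List.mem_map.2 ⟨e, he, rfl⟩)
  have key : ∀ e ∈ A, e.2 - vec (comp V A bl) e.1.1 = e.2 - y e.1.1 := by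
    intro e he
    have hu := (hV e he).1
    have h2 := hy e.1.1
    have h3 : vec (tab V fun v => min (vec bl v) (wts A)) e.1.1 =
      min (vec bl e.1.1) (wts A) := vec_tab hu
    have h4 := hw e he
    rw [TB, h3] at h2
    rw [hx _ hu]
    omega
  have hT : ∀ v, T A (vec (comp V A bl)) v = T A y v := by
    intro v
    apply le_antisymm
    · refine T_le fun e he hv => ?_
      rw [key e he, ← hv]
      exact le_T he
    · refine T_le fun e he hv => ?_
      rw [← key e he, ← hv]
      exact le_T he
  intro v hv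
  have h2 := hy v
  have h3 : vec (tab V fun v => min (vec bl v) (wts A)) v =
    min (vec bl v) (wts A) := vec_tab hv
  rw [TB, h3] at h2
  rw [TB, hT v, hx v hv]
  omega

end Pool.Agent.Lib.MP_c29043_lc.SWC
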