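import Pool.Agent.Lib.MP_c29043_lc.SWC.Spec

/-!
# Project SWC, module Cor: correctness for small lower bounds (adapted from SW/Cor.lean)
-/

set_option autoImplicit false

open N68a2faeb N487b59b3 Pool.Agent.Lib.PolyTime

namespace Pool.Agent.Lib.MP_c29043_lc.SWC

open Pool.Agent.Lib.MP_c29043_lc

private theorem Cor_fold (hStp : S_Stp) (hNxt : SW.S_Nxt) (V : List ℕ)
    (A : List ((ℕ × ℕ) × ℕ)) (bl : List (ℕ × ℕ))
    (hev : ∀ e ∈ A, Even e.2) (hsep : SW.Sep A) (X : List ((ℕ × ℕ) × ℕ)) :
    ∀ (k : ℕ) (s : ℕ × (List (ℕ × ℕ) × List (ℕ × ℕ))), St V A bl s →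
      (s.1 = 0 ∨ (A.filter fun e => decide (e.2 ≤ s.1)).length + k ≤ A.length) →
      St V A bl (X.foldl (fun s _ => stg V A bl s) s) ∧
        ((X.foldl (fun s _ => stg V A bl s) s).1 = 0 ∨
          (A.filter fun e => decide (e.2 ≤ (X.foldl (fun s _ => stg V A bl s) s).1)).length +
            (k + X.length) ≤ A.length) := by
  induction X with
  | nil =>
    intro k s hs hk
    exact ⟨hs, hk⟩
  | cons x X ih =>
    intro k s hs hk
    have hst : St V A bl (stg V A bl s) := hStp V A bl s hev hsep hs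
    have h1 : (stg V A bl s).1 = SW.nxt A s.1 := rfl
    obtain ⟨-, h3, h4⟩ := hNxt A s.1 hev hsep hs.inv.wt
    have h5 : (stg V A bl s).1 = 0 ∨
        (A.filter fun e => decide (e.2 ≤ (stg V A bl s).1)).length + (k + 1) ≤ A.length := by
      rw [h1]
      rcases Nat.eq_zero_or_pos s.1 with h0 | h0
      · exact Or.inl (h3 h0)
      · right
        have h6 := h4 h0
        rcases hk with hk | hk
        · omega
        · omega
    have h7 := ih (k + 1) (stg V A bl s) hst h5
    rw [List.foldl_cons, List.length_cons]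
    refine ⟨h7.1, ?_⟩
    rcases h7.2 with h8 | h8
    · exact Or.inl h8
    · right
      omega

theorem tCor (h1 : S_Ini) (h2 : S_Stp) (h3 : SW.S_Nxt) : S_Cor := by
  intro V A bl hev hsep hV hb hb0
  obtain ⟨hs, hk⟩ := Cor_fold h2 h3 V A bl hev hsep A 0 (ini V A) (h1 V A bl hV hb hb0)
    (Or.inr (by
      rw [add_zero]
      exact List.length_filter_le _ _))
  obtain ⟨s, hsdef⟩ : ∃ s, s = A.foldl (fun s _ => stg V A bl s) (ini V A) := ⟨_, rfl⟩
  rw [← hsdef] at hs hk
  have h0 : s.1 = 0 := by
    rcases hk with h | h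
    · exact h
    · by_contra hne
      rcases hs.inv.wt with h4 | ⟨e, he, h4⟩
      · exact hne h4
      · have h5 : e ∈ A.filter fun e => decide (e.2 ≤ s.1) := by
          rw [List.mem_filter]
          exact ⟨he, by simp [h4]⟩
        have h6 := List.length_pos_of_mem h5
        omega
  have hinv := hs.inv
  rw [h0] at hinv
  have hhl : vec s.2.2 = vec s.2.1 := by
    funext v
    rcases hinv.width v with h | h
    · exact h
    · simpa using h
  have halg : sol V A bl = s.2.1 := by
    rw [hsdef]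
    rfl
  rw [halg]
  intro v
  apply le_antisymm
  · have := hinv.low v
    rwa [hhl] at this
  · have := hinv.up v
    rwa [hhl] at this

end Pool.Agent.Lib.MP_c29043_lc.SWC
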