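import Pool.Agent.Lib.MP_c29043_lc.Defs

/-!
# Weights separated inside the strong components: the definition
-/

set_option autoImplicit false

namespace Pool.Agent.Lib.MP_c29043_lc

/-- There is a path (possibly of length `0`) from `u` to `v`. -/
def PathTo (A : List ((ℕ × ℕ) × ℕ)) (u v : ℕ) : Prop :=
  Relation.ReflTransGen (fun p q => ∃ w, ((p, q), w) ∈ A) u v

/-- Any two different weights of arcs inside the same strong component differ by a factor of at
least `r`.  The arcs `a` and `b` are inside the same strong component if there are paths from the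
end of `a` to the start of `b` and from the end of `b` to the start of `a`. -/
def SepRC (r : ℝ) (A : List ((ℕ × ℕ) × ℕ)) : Prop :=
  ∀ a ∈ A, ∀ b ∈ A, PathTo A a.1.2 b.1.1 → PathTo A b.1.2 a.1.1 → a.2 < b.2 →
    r * (a.2 : ℝ) ≤ (b.2 : ℝ)

end Pool.Agent.Lib.MP_c29043_lc
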