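import Pool.Agent.Lib.MP_c29043_lc.SWC.Spec

/-!
# MP_c29043_lc, project SWC, module Fix: the rounds become stable (helper95)
-/

set_option autoImplicit false

open N68a2faeb N487b59b3 Pool.Agent.Lib.PolyTime

namespace Pool.Agent.Lib.MP_c29043_lc.SWC

open Pool.Agent.Lib.MP_c29043_lc

/-- If a round changes nothing then no later round does. -/
private theorem Fix_stay (A : List ((ℕ × ℕ) × ℕ)) (b L0 H0 : ℕ → ℕ) (m k : ℕ)
    (h : it A b L0 H0 m (k + 1) = it A b L0 H0 m k) :
    ∀ j, it A b L0 H0 m (k + j) = it A b L0 H0 m k := by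
  intro j
  induction j with
  | zero => rfl
  | succ j ih =>
    have h1 : it A b L0 H0 m (k + j + 1) = it A b L0 H0 m (k + 1) := by
      simp only [it, ih]
    rw [← Nat.add_assoc, h1, h]

/-- the number of the values below `a` plus the number of the values above `c` -/
private def Fix_cnt (Z : Finset ℕ) (a c : ℕ) : ℕ :=
  (Z.filter fun z => z < a).card + (Z.filter fun z => c < z).card

private theorem Fix_cnt_le (Z : Finset ℕ) (a c : ℕ) : Fix_cnt Z a c ≤ 2 * Z.card := by
  unfold Fix_cnt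
  have h1 := Finset.card_filter_le Z fun z => z < a
  have h2 := Finset.card_filter_le Z fun z => c < z
  omega

private theorem Fix_lo (Z : Finset ℕ) {a a' : ℕ} (h : a ≤ a') :
    (Z.filter fun z => z < a).card ≤ (Z.filter fun z => z < a').card := by
  refine Finset.card_le_card fun z hz => ?_
  rw [Finset.mem_filter] at hz ⊢
  exact ⟨hz.1, hz.2.trans_le h⟩

private theorem Fix_hi (Z : Finset ℕ) {c c' : ℕ} (h : c' ≤ c) :
    (Z.filter fun z => c < z).card ≤ (Z.filter fun z => c' < z).card := by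
  refine Finset.card_le_card fun z hz => ?_
  rw [Finset.mem_filter] at hz ⊢
  exact ⟨hz.1, lt_of_le_of_lt h hz.2⟩

private theorem Fix_cnt_mono (Z : Finset ℕ) {a a' c c' : ℕ} (h : a ≤ a') (h' : c' ≤ c) :
    Fix_cnt Z a c ≤ Fix_cnt Z a' c' :=
  Nat.add_le_add (Fix_lo Z h) (Fix_hi Z h')

private theorem Fix_cnt_left (Z : Finset ℕ) {a a' c c' : ℕ} (ha : a ∈ Z) (h : a < a')
    (h' : c' ≤ c) : Fix_cnt Z a c < Fix_cnt Z a' c' := by
  refine Nat.add_lt_add_of_lt_of_le ?_ (Fix_hi Z h')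
  refine Finset.card_lt_card ⟨fun z hz => ?_, fun hs => ?_⟩
  · rw [Finset.mem_filter] at hz ⊢
    exact ⟨hz.1, hz.2.trans h⟩
  · have h1 := hs (Finset.mem_filter.2 ⟨ha, h⟩)
    rw [Finset.mem_filter] at h1
    exact lt_irrefl _ h1.2

private theorem Fix_cnt_right (Z : Finset ℕ) {a a' c c' : ℕ} (hc : c ∈ Z) (h : a ≤ a')
    (h' : c' < c) : Fix_cnt Z a c < Fix_cnt Z a' c' := by
  refine Nat.add_lt_add_of_le_of_lt (Fix_lo Z h) ?_
  refine Finset.card_lt_card ⟨fun z hz => ?_, fun hs => ?_⟩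
  · rw [Finset.mem_filter] at hz ⊢
    exact ⟨hz.1, h'.trans hz.2⟩
  · have h1 := hs (Finset.mem_filter.2 ⟨hc, h'⟩)
    rw [Finset.mem_filter] at h1
    exact lt_irrefl _ h1.2

theorem tFix : S_Fix := by
  intro A b lam m L0 H0 V hw hV hM hz
  have hZc : (zs V b L0 lam m).toFinset.card ≤ 2 * V.length + 4 := by
    refine (List.toFinset_card_le _).trans ?_
    simp [zs]
    omega
  obtain ⟨Φ, hΦ⟩ : ∃ Φ : ℕ → ℕ, ∀ k, Φ k = ∑ v ∈ V.toFinset,
      Fix_cnt (zs V b L0 lam m).toFinset ((it A b L0 H0 m k).1 v - L0 v)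
        ((it A b L0 H0 m k).2 v - L0 v) := ⟨_, fun _ => rfl⟩
  have hΦb : ∀ k, Φ k ≤ V.length * (2 * (2 * V.length + 4)) := by
    intro k
    rw [hΦ]
    calc _ ≤ ∑ _v ∈ V.toFinset, 2 * (2 * V.length + 4) :=
          Finset.sum_le_sum fun v _ => (Fix_cnt_le _ _ _).trans (Nat.mul_le_mul_left 2 hZc)
      _ = V.toFinset.card * (2 * (2 * V.length + 4)) := by rw [Finset.sum_const, smul_eq_mul]
      _ ≤ _ := Nat.mul_le_mul_right _ (List.toFinset_card_le _)
  have hstep : ∀ k, it A b L0 H0 m (k + 1) ≠ it A b L0 H0 m k → Φ k < Φ (k + 1) := by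
    intro k hne
    have hex : ∃ v, (it A b L0 H0 m (k + 1)).1 v ≠ (it A b L0 H0 m k).1 v ∨
        (it A b L0 H0 m (k + 1)).2 v ≠ (it A b L0 H0 m k).2 v := by
      by_contra hc
      refine hne (Prod.ext (funext fun v => ?_) (funext fun v => ?_))
      · by_contra h1
        exact hc ⟨v, Or.inl h1⟩
      · by_contra h1
        exact hc ⟨v, Or.inr h1⟩
    obtain ⟨v, hv⟩ := hex
    obtain ⟨a1, a2, a3, a4, a5⟩ := hM k v
    obtain ⟨b1, b2, b3, -, -⟩ := hM (k + 1) v
    have hvV : v ∈ V := by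
      by_contra hn
      obtain ⟨e1, e2⟩ := hV v hn
      rcases hv with hv | hv <;> apply hv <;> omega
    have hlam : H0 v = L0 v + lam := by
      rcases hw v with e | e
      · exfalso
        rcases hv with hv | hv <;> apply hv <;> omega
      · exact e
    obtain ⟨z1, z2⟩ := hz k v hlam
    rw [hΦ, hΦ]
    refine Finset.sum_lt_sum (fun u _ => ?_) ⟨v, List.mem_toFinset.2 hvV, ?_⟩
    · obtain ⟨-, -, -, c4, c5⟩ := hM k u
      exact Fix_cnt_mono _ (Nat.sub_le_sub_right c4 _) (Nat.sub_le_sub_right c5 _)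
    · rcases hv with hv | hv
      · exact Fix_cnt_left _ (List.mem_toFinset.2 z1) (by omega) (by omega)
      · exact Fix_cnt_right _ (List.mem_toFinset.2 z2) (by omega) (by omega)
  obtain ⟨N, hN⟩ : ∃ N, N = (V2 V).length * (V2 V).length := ⟨_, rfl⟩
  have h4 : (V2 V).length = 2 * V.length + 4 := by
    simp [V2]
    omega
  have h5 : V.length * (2 * (2 * V.length + 4)) < N := by
    rw [hN, h4]
    nlinarith
  have hex : ∃ k, k < N ∧ it A b L0 H0 m (k + 1) = it A b L0 H0 m k := by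
    by_contra hc
    have h1 : ∀ k, k ≤ N → k ≤ Φ k := by
      intro k
      induction k with
      | zero => exact fun _ => Nat.zero_le _
      | succ k ih =>
        intro hk
        have h2 := ih (by omega)
        have h3 := hstep k fun h => hc ⟨k, by omega, h⟩
        omega
    have h2 := h1 N le_rfl
    have h3 := hΦb N
    omega
  obtain ⟨k, hk, hst⟩ := hex
  have h6 : it A b L0 H0 m N = it A b L0 H0 m k := by
    have h := Fix_stay A b L0 H0 m k hst (N - k)
    rwa [Nat.add_sub_cancel' hk.le] at h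
  have h7 : it A b L0 H0 m (N + 1) = it A b L0 H0 m k := by
    have h := Fix_stay A b L0 H0 m k hst (N + 1 - k)
    rwa [Nat.add_sub_cancel' (by omega)] at h
  have h8 : it A b L0 H0 m (N + 1) = it A b L0 H0 m N := h7.trans h6.symm
  rw [← hN]
  refine ⟨fun v => (hM N v).2.1, fun v => ?_, fun v => ?_⟩
  · exact (congrFun (congrArg Prod.fst h8) v).symm
  · exact (congrFun (congrArg Prod.snd h8) v).symm

end Pool.Agent.Lib.MP_c29043_lc.SWC
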