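import Pool.Agent.Lib.MP_c29043_lc.SWC.Spec

/-!
# Covers of digraphs, weights separated in the strong components: the kinds of vertices
-/

set_option autoImplicit false

open N68a2faeb N487b59b3 Pool.Agent.Lib.PolyTime

namespace Pool.Agent.Lib.MP_c29043_lc.SWC

open Pool.Agent.Lib.MP_c29043_lc

theorem Kin_anti {A : List ((ℕ × ℕ) × ℕ)} {b x y : ℕ → ℕ} (h : ∀ v, x v ≤ y v) (v : ℕ) :
    TB A b y v ≤ TB A b x v := max_le_max le_rfl (T_anti h v)

theorem tKin (_h1 : S_Rd) : S_Kin := by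
  intro A b lam m L0 H0 L H hI hm h2 hev hs v
  have hL0 : ∀ u, L0 u ≤ L u := by
    intro u
    rw [hs.fl u]
    unfold dn
    rcases hI.width u with h0 | h0 <;> split_ifs <;> omega
  have hH0 : ∀ u, H u ≤ H0 u := by
    intro u
    rw [hs.fh u]
    unfold up
    rcases hI.width u with h0 | h0 <;> split_ifs <;> omega
  have a1 : L0 v ≤ TB A b H v := (hI.low v).trans (Kin_anti hH0 v)
  have a2 : TB A b L v ≤ H0 v := (Kin_anti hL0 v).trans (hI.up v)
  have a3 : TB A b H v ≤ TB A b L v := Kin_anti hs.le v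
  have hle := hs.le v
  have hL := hs.fl v
  have hH := hs.fh v
  unfold dn at hL
  unfold up at hH
  have hnl : nl m L0 H0 L H v = if H v = L0 v + m ∨ L v = H0 v - m then L v else
      max (L v) (min ((L0 v + H0 v) / 2) (H v)) := rfl
  have hnh : nh m L0 H0 L H v = if H v = L0 v + m ∨ L v = H0 v - m then H v else
      max (L v) (min ((L0 v + H0 v) / 2) (H v)) := rfl
  rcases hI.width v with h0 | h0
  · have c0 : H0 v ≤ L0 v := h0.le
    rw [if_pos c0] at hL hH
    refine Kind.fix h0 hL hH ?_ ?_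
    · rw [hnl]; split_ifs <;> omega
    · rw [hnh]; split_ifs <;> omega
  · have c0 : ¬ H0 v ≤ L0 v := by omega
    rw [if_neg c0] at hL hH
    by_cases c1 : H0 v - m ≤ TB A b H v
    · rw [if_pos c1] at hL
      have d1 : H v = L0 v + m ∨ L v = H0 v - m := Or.inr hL
      rw [if_pos d1] at hnl hnh
      by_cases c2 : TB A b L v ≤ L0 v + m
      · rw [if_pos c2] at hH
        refine Kind.both ?_ h0 ?_ ?_ ?_ ?_ ?_ ?_ <;> omega
      · rw [if_neg c2, if_neg (by omega)] at hH
        refine Kind.high h0 ?_ ?_ ?_ ?_ ?_ <;> omega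
    · rw [if_neg c1] at hL
      by_cases c2 : TB A b L v ≤ L0 v + m
      · rw [if_pos c2] at hH
        rw [if_neg (by omega)] at hL
        have d1 : H v = L0 v + m ∨ L v = H0 v - m := Or.inl (by omega)
        rw [if_pos d1] at hnl hnh
        refine Kind.low h0 hL ?_ ?_ ?_ c2 <;> omega
      · rw [if_neg c2] at hH
        have d1 : ¬ (H v = L0 v + m ∨ L v = H0 v - m) := by
          split_ifs at hL hH <;> omega
        rw [if_neg d1] at hnl hnh
        refine Kind.mid h0 ?_ ?_ ?_ ?_ ?_ ?_ ?_ ?_ ?_ ?_ ?_ <;> split_ifs at hL hH <;> omega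

end Pool.Agent.Lib.MP_c29043_lc.SWC
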