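import Pool.Agent.Lib.MP_c29043_lc.SWC.Spec

/-!
# MP_c29043_lc, project SWC: the loop over the strong components
-/

set_option autoImplicit false

open N68a2faeb N487b59b3 Pool.Agent.Lib.PolyTime

namespace Pool.Agent.Lib.MP_c29043_lc.SWC

open Pool.Agent.Lib.MP_c29043_lc

namespace LopAux

/-- the invariant of the loop -/
structure LInv (A : List ((ℕ × ℕ) × ℕ)) (s : List ℕ × List (ℕ × ℕ)) : Prop where
  sub : ∀ u ∈ s.1, u ∈ verts A
  top : ∀ v ∈ s.1, vec s.2 v = wts A
  le : ∀ v, vec s.2 v ≤ wts A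
  out : ∀ v, v ∉ verts A → vec s.2 v = 0
  eqn : ∀ v, v ∉ s.1 → vec s.2 v = T A (vec s.2) v
  arc : ∀ a ∈ A, a.1.2 ∉ s.1 → a.1.1 ∉ s.1

theorem mem_new {R X : List ℕ} {v : ℕ} :
    v ∈ R.filter (fun u => decide (u ∉ X)) ↔ v ∈ R ∧ v ∉ X := by
  rw [List.mem_filter, decide_eq_true_iff]

theorem length_new {R X : List ℕ} (hX : X ≠ []) (hXR : ∀ u ∈ X, u ∈ R) :
    (R.filter (fun u => decide (u ∉ X))).length < R.length := by
  obtain ⟨u, hu⟩ := List.exists_mem_of_ne_nil X hX
  rw [List.length_filter_lt_length_iff_exists]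
  refine ⟨u, hXR u hu, ?_⟩
  rw [decide_eq_true_iff, not_not]
  exact hu

theorem mem_inn {A : List ((ℕ × ℕ) × ℕ)} {X : List ℕ} {e : (ℕ × ℕ) × ℕ} :
    e ∈ inn A X ↔ e ∈ A ∧ e.1.1 ∈ X ∧ e.1.2 ∈ X := by
  unfold inn
  rw [List.mem_filter, Bool.and_eq_true, decide_eq_true_iff, decide_eq_true_iff]

theorem reach_of_strong {A : List ((ℕ × ℕ) × ℕ)} {X : List ℕ}
    (hX : CR.Strong A {u | u ∈ X}) {u v : ℕ} (hu : u ∈ X) (hv : v ∈ X) : Reach A u v := by
  have h := hX u hu v hv
  unfold Reach
  induction h with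
  | refl => exact Relation.ReflTransGen.refl
  | tail _ hbc ih => exact (ih hbc.1).tail hbc.2.2

theorem sep_inn {A : List ((ℕ × ℕ) × ℕ)} {X : List ℕ} (hs : SepC A)
    (hX : CR.Strong A {u | u ∈ X}) : SW.Sep (inn A X) := by
  intro a ha b hb hab
  rw [mem_inn] at ha hb
  exact hs a ha.1 b hb.1 (reach_of_strong hX ha.2.2 hb.2.1) (reach_of_strong hX hb.2.2 ha.2.1) hab

/-- one step -/
theorem step (h1 : CR.S_Src) (h2 : S_Cmp) {A : List ((ℕ × ℕ) × ℕ)} (hev : ∀ e ∈ A, Even e.2)
    (hsep : SepC A) {s : List ℕ × List (ℕ × ℕ)} (hs : LInv A s) (hne : s.1 ≠ []) :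
    LInv A (stp A s) ∧ (stp A s).1.length < s.1.length := by
  obtain ⟨X, hX⟩ : ∃ X, X = CR.src A s.1 := ⟨_, rfl⟩
  obtain ⟨hX1, hX2, hX3, hX4⟩ := h1 A s.1 hne
  rw [← hX] at hX1 hX2 hX3 hX4
  obtain ⟨bl, hbl⟩ : ∃ bl, bl = tab X fun u => T A (vec s.2) u := ⟨_, rfl⟩
  obtain ⟨c, hc⟩ : ∃ c, c = vec (comp X (inn A X) bl) := ⟨_, rfl⟩
  have hcX : ∀ v ∈ X, c v = max (T A (vec s.2) v) (T (inn A X) c v) := by
    intro v hv
    have h := h2 X (inn A X) bl (fun e he => hev e (mem_inn.1 he).1) (sep_inn hsep hX3)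
      (fun e he => (mem_inn.1 he).2) v hv
    rw [← hc] at h
    unfold TB at h
    rw [hbl, vec_tab hv] at h
    exact h
  have hcle : ∀ v ∈ X, c v ≤ wts A := by
    intro v hv
    rw [hcX v hv]
    exact max_le (T_le_bound le_wts v) (T_le_bound (fun e he => le_wts e (mem_inn.1 he).1) v)
  have hXv : ∀ v ∈ X, v ∈ verts A := fun v hv => hs.sub v (hX1 v hv)
  have hstp : stp A s = (s.1.filter fun u => decide (u ∉ X),
      tab (verts A) fun v => min (wts A) (if v ∈ X then c v else vec s.2 v)) := by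
    unfold stp
    rw [if_neg hne, ← hX, ← hbl, ← hc]
  have hR : (stp A s).1 = s.1.filter fun u => decide (u ∉ X) := by rw [hstp]
  obtain ⟨y, hy⟩ : ∃ y, y = vec (stp A s).2 := ⟨_, rfl⟩
  have hyX : ∀ v ∈ X, y v = c v := by
    intro v hv
    rw [hy, hstp]
    show vec (tab (verts A) fun v => min (wts A) (if v ∈ X then c v else vec s.2 v)) v = c v
    rw [vec_tab (hXv v hv), if_pos hv, min_eq_right (hcle v hv)]
  have hyN : ∀ v, v ∉ X → y v = vec s.2 v := by
    intro v hv
    rw [hy, hstp]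
    show vec (tab (verts A) fun v => min (wts A) (if v ∈ X then c v else vec s.2 v)) v =
      vec s.2 v
    by_cases hvA : v ∈ verts A
    · rw [vec_tab hvA, if_neg hv, min_eq_right (hs.le v)]
    · rw [vec_tab_zero hvA, hs.out v hvA]
  refine ⟨⟨?_, ?_, ?_, ?_, ?_, ?_⟩, ?_⟩
  · intro u hu
    rw [hR, mem_new] at hu
    exact hs.sub u hu.1
  · intro v hv
    rw [hR, mem_new] at hv
    rw [← hy, hyN v hv.2]
    exact hs.top v hv.1
  · intro v
    rw [← hy]
    by_cases hv : v ∈ X
    · rw [hyX v hv]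
      exact hcle v hv
    · rw [hyN v hv]
      exact hs.le v
  · intro v hv
    rw [← hy, hyN v (fun h => hv (hXv v h))]
    exact hs.out v hv
  · intro v hv
    rw [hR, mem_new] at hv
    rw [← hy]
    by_cases hvX : v ∈ X
    · rw [hyX v hvX]
      apply le_antisymm
      · rw [hcX v hvX]
        refine max_le ?_ ?_
        · apply T_le
          intro e he hev'
          by_cases hu : e.1.1 ∈ s.1
          · rw [hs.top _ hu]
            have := le_wts e he
            omega
          · have hu' : e.1.1 ∉ X := fun h => hu (hX1 _ h)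
            have h3 := le_T (x := y) he
            rw [hev', hyN _ hu'] at h3
            exact h3
        · apply T_le
          intro e he hev'
          rw [mem_inn] at he
          have h3 := le_T (x := y) he.1
          rw [hev', hyX _ he.2.1] at h3
          exact h3
      · apply T_le
        intro e he hev'
        by_cases hu : e.1.1 ∈ X
        · rw [hyX _ hu]
          have he' : e ∈ inn A X := mem_inn.2 ⟨he, hu, by rw [hev']; exact hvX⟩
          have h3 := le_T (x := c) he'
          rw [hev'] at h3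
          rw [hcX v hvX]
          exact h3.trans (le_max_right _ _)
        · rw [hyN _ hu]
          have h3 := le_T (x := vec s.2) he
          rw [hev'] at h3
          rw [hcX v hvX]
          exact h3.trans (le_max_left _ _)
    · have hvR : v ∉ s.1 := fun h => hv ⟨h, hvX⟩
      rw [hyN v hvX, hs.eqn v hvR]
      have hu : ∀ e ∈ A, e.1.2 = v → y e.1.1 = vec s.2 e.1.1 := by
        intro e he hev'
        exact hyN _ fun h => hs.arc e he (by rw [hev']; exact hvR) (hX1 _ h)
      apply le_antisymm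
      · apply T_le
        intro e he hev'
        have h3 := le_T (x := y) he
        rw [hev', hu e he hev'] at h3
        exact h3
      · apply T_le
        intro e he hev'
        rw [hu e he hev']
        have h3 := le_T (x := vec s.2) he
        rw [hev'] at h3
        exact h3
  · intro a ha haR
    rw [hR, mem_new] at haR ⊢
    rintro ⟨h, h'⟩
    by_cases haX : a.1.2 ∈ X
    · exact h' (hX4 a ha haX h)
    · exact hs.arc a ha (fun h0 => haR ⟨h0, haX⟩) h
  · rw [hR]
    exact length_new hX2 hX1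

/-- the loop -/
theorem loop (h1 : CR.S_Src) (h2 : S_Cmp) {A : List ((ℕ × ℕ) × ℕ)} (hev : ∀ e ∈ A, Even e.2)
    (hsep : SepC A) (L : List ℕ) :
    ∀ s : List ℕ × List (ℕ × ℕ), LInv A s →
      LInv A (L.foldl (fun s _ => stp A s) s) ∧
      (L.foldl (fun s _ => stp A s) s).1.length ≤ s.1.length - L.length := by
  induction L with
  | nil => intro s hs; exact ⟨hs, le_rfl⟩
  | cons b L ih =>
    intro s hs
    rw [List.foldl_cons]
    by_cases hne : s.1 = []
    · have hstp : stp A s = s := by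
        unfold stp
        rw [if_pos hne]
      rw [hstp]
      refine ⟨(ih s hs).1, ?_⟩
      have h := (ih s hs).2
      have h0 : s.1.length = 0 := by rw [hne]; rfl
      omega
    · obtain ⟨hs1, hs2⟩ := step h1 h2 hev hsep hs hne
      refine ⟨(ih _ hs1).1, ?_⟩
      have h := (ih _ hs1).2
      rw [List.length_cons]
      omega

theorem start (A : List ((ℕ × ℕ) × ℕ)) : LInv A (verts A, tab (verts A) fun _ => wts A) := by
  refine ⟨fun _ hu => hu, fun v hv => vec_tab hv, fun v => ?_, fun v hv => vec_tab_zero hv,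
    fun v hv => ?_, fun a ha h => absurd (mem_verts ha).2 h⟩
  · show vec (tab (verts A) fun _ => wts A) v ≤ wts A
    by_cases hv : v ∈ verts A
    · rw [vec_tab hv]
    · rw [vec_tab_zero hv]
      exact Nat.zero_le _
  · show vec (tab (verts A) fun _ => wts A) v = _
    rw [vec_tab_zero hv]
    exact (T_zero_of_not_mem hv).symm

end LopAux

theorem tLop (h1 : CR.S_Src) (h2 : S_Cmp) : S_Lop := by
  intro A hev hsep
  obtain ⟨h, hl⟩ := LopAux.loop h1 h2 hev hsep (verts A) _ (LopAux.start A)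
  have h0 : ((verts A).foldl (fun s _ => stp A s)
      (verts A, tab (verts A) fun _ => wts A)).1.length = 0 := by
    have e0 : ((verts A, tab (verts A) fun _ => wts A) :
      List ℕ × List (ℕ × ℕ)).1.length - (verts A).length = 0 := Nat.sub_self _
    omega
  rw [List.length_eq_zero_iff] at h0
  unfold alg
  apply isCover_of_fix
  intro v
  refine (h.eqn v ?_).symm
  rw [h0]
  exact List.not_mem_nil

end Pool.Agent.Lib.MP_c29043_lc.SWC
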