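import Pool.Agent.Lib.MP_c29043_lc.SWC.Spec

/-!
# Weights separated inside the strong components: the rounds on lists (helper49)
-/

set_option autoImplicit false

open N68a2faeb N487b59b3 Pool.Agent.Lib.PolyTime

namespace Pool.Agent.Lib.MP_c29043_lc.SWC

open Pool.Agent.Lib.MP_c29043_lc

private theorem Lst_dn {V : List ℕ} {L0 H0 : ℕ → ℕ} (m : ℕ) (t : ℕ → ℕ)
    (h : ∀ v, v ∉ V → L0 v = 0 ∧ H0 v = 0) :
    vec (tab V (fun v => dn (L0 v) (H0 v) m (t v))) = fun v => dn (L0 v) (H0 v) m (t v) := by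
  apply vec_tab_eq
  intro v hv
  obtain ⟨h1, h2⟩ := h v hv
  simp [dn, h1, h2]

private theorem Lst_up {V : List ℕ} {L0 H0 : ℕ → ℕ} (m : ℕ) (t : ℕ → ℕ)
    (h : ∀ v, v ∉ V → L0 v = 0 ∧ H0 v = 0) :
    vec (tab V (fun v => up (L0 v) (H0 v) m (t v))) = fun v => up (L0 v) (H0 v) m (t v) := by
  apply vec_tab_eq
  intro v hv
  obtain ⟨h1, h2⟩ := h v hv
  simp [up, h1, h2]

private theorem Lst_fold (V : List ℕ) (A : List ((ℕ × ℕ) × ℕ)) (bl l0 h0 : List (ℕ × ℕ)) (m : ℕ)
    (h : ∀ v, v ∉ V → vec l0 v = 0 ∧ vec h0 v = 0) (X : List ℕ) :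
    ∀ (k : ℕ) (p : List (ℕ × ℕ) × List (ℕ × ℕ)),
      vec p.1 = (it A (vec bl) (vec l0) (vec h0) m k).1 →
      vec p.2 = (it A (vec bl) (vec l0) (vec h0) m k).2 →
      vec (X.foldl (fun p _ => rnd V A bl l0 h0 m p) p).1 =
          (it A (vec bl) (vec l0) (vec h0) m (k + X.length)).1 ∧
        vec (X.foldl (fun p _ => rnd V A bl l0 h0 m p) p).2 =
          (it A (vec bl) (vec l0) (vec h0) m (k + X.length)).2 := by
  induction X with
  | nil => intro k p h1 h2; exact ⟨h1, h2⟩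
  | cons b X ih =>
    intro k p h1 h2
    rw [List.foldl_cons, List.length_cons]
    have e : k + (X.length + 1) = (k + 1) + X.length := by omega
    rw [e]
    apply ih (k + 1)
    · rw [rnd]
      dsimp only
      rw [Lst_dn m _ h, h2]
      rfl
    · rw [rnd]
      dsimp only
      rw [Lst_up m _ h, h1]
      rfl

private theorem Lst_fold2 (V : List ℕ) (A : List ((ℕ × ℕ) × ℕ)) (bl l0 h0 : List (ℕ × ℕ)) (m : ℕ)
    (h : ∀ v, v ∉ V → vec l0 v = 0 ∧ vec h0 v = 0) (X Y : List ℕ) :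
    ∀ (k : ℕ) (p : List (ℕ × ℕ) × List (ℕ × ℕ)),
      vec p.1 = (it A (vec bl) (vec l0) (vec h0) m k).1 →
      vec p.2 = (it A (vec bl) (vec l0) (vec h0) m k).2 →
      vec (Y.foldl (fun p _ => X.foldl (fun p _ => rnd V A bl l0 h0 m p) p) p).1 =
          (it A (vec bl) (vec l0) (vec h0) m (k + Y.length * X.length)).1 ∧
        vec (Y.foldl (fun p _ => X.foldl (fun p _ => rnd V A bl l0 h0 m p) p) p).2 =
          (it A (vec bl) (vec l0) (vec h0) m (k + Y.length * X.length)).2 := by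
  induction Y with
  | nil =>
    intro k p h1 h2
    rw [List.length_nil, Nat.zero_mul, Nat.add_zero]
    exact ⟨h1, h2⟩
  | cons b Y ih =>
    intro k p h1 h2
    rw [List.foldl_cons, List.length_cons]
    have e : k + (Y.length + 1) * X.length = (k + X.length) + Y.length * X.length := by ring
    rw [e]
    obtain ⟨h3, h4⟩ := Lst_fold V A bl l0 h0 m h X k p h1 h2
    exact ih (k + X.length) _ h3 h4

theorem tLst : S_Lst := by
  intro V A bl l0 h0 m h
  have key := Lst_fold2 V A bl l0 h0 m h (V2 V) (V2 V) 0 (l0, h0) rfl rfl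
  rw [Nat.zero_add] at key
  exact key

end Pool.Agent.Lib.MP_c29043_lc.SWC
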