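import Pool.Agent.Lib.MP_c29043_lc.SWC.Spec

/-!
# Weights separated inside the strong components: the rounds are monotone
-/

set_option autoImplicit false

open N68a2faeb N487b59b3 Pool.Agent.Lib.PolyTime

namespace Pool.Agent.Lib.MP_c29043_lc.SWC

open Pool.Agent.Lib.MP_c29043_lc

private theorem Mon_TB (A : List ((ℕ × ℕ) × ℕ)) (b x y : ℕ → ℕ) (h : ∀ u, x u ≤ y u) (v : ℕ) :
    TB A b y v ≤ TB A b x v := by
  unfold TB
  exact max_le_max le_rfl (T_anti h v)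

theorem tMon (h1 : S_Rd) : S_Mon := by
  intro A b lam m L0 H0 hI hm
  have h00 : ∀ v, L0 v ≤ H0 v := by
    intro v
    rcases hI.width v with h | h <;> omega
  -- a point of the box is mapped to the box
  have hlow : ∀ x : ℕ → ℕ, (∀ u, x u ≤ H0 u) → ∀ v, L0 v ≤ TB A b x v := fun x hx v =>
    (hI.low v).trans (Mon_TB A b x H0 hx v)
  have hup : ∀ x : ℕ → ℕ, (∀ u, L0 u ≤ x u) → ∀ v, TB A b x v ≤ H0 v := fun x hx v =>
    (Mon_TB A b L0 x hx v).trans (hI.up v)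
  have key : ∀ (v t t' : ℕ), L0 v ≤ t → t ≤ t' → t' ≤ H0 v →
      L0 v ≤ dn (L0 v) (H0 v) m t ∧ dn (L0 v) (H0 v) m t ≤ t ∧ t ≤ up (L0 v) (H0 v) m t ∧
        up (L0 v) (H0 v) m t ≤ H0 v ∧
        dn (L0 v) (H0 v) m t ≤ dn (L0 v) (H0 v) m t' ∧
        up (L0 v) (H0 v) m t ≤ up (L0 v) (H0 v) m t' := fun v t t' ha hb hc =>
    h1 (L0 v) (H0 v) lam m t t' (hI.width v) hm ha hb hc
  intro k
  induction k with
  | zero =>
    intro v
    refine ⟨le_rfl, h00 v, le_rfl, ?_, ?_⟩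
    · change L0 v ≤ dn (L0 v) (H0 v) m (TB A b H0 v)
      exact (key v _ _ (hlow H0 (fun _ => le_rfl) v) le_rfl (hup H0 h00 v)).1
    · change up (L0 v) (H0 v) m (TB A b L0 v) ≤ H0 v
      exact (key v _ _ (hlow L0 h00 v) le_rfl (hup L0 (fun _ => le_rfl) v)).2.2.2.1
  | succ k ih =>
    have hA : ∀ v, L0 v ≤ (it A b L0 H0 m (k + 1)).1 v ∧
        (it A b L0 H0 m (k + 1)).1 v ≤ (it A b L0 H0 m (k + 1)).2 v ∧
        (it A b L0 H0 m (k + 1)).2 v ≤ H0 v := by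
      intro v
      have e1 : L0 v ≤ TB A b (it A b L0 H0 m k).2 v := hlow _ (fun u => (ih u).2.2.1) v
      have e2 : TB A b (it A b L0 H0 m k).2 v ≤ TB A b (it A b L0 H0 m k).1 v :=
        Mon_TB A b _ _ (fun u => (ih u).2.1) v
      have e3 : TB A b (it A b L0 H0 m k).1 v ≤ H0 v := hup _ (fun u => (ih u).1) v
      have k1 := key v _ _ e1 e2 e3
      have k2 := key v _ _ (e1.trans e2) le_rfl e3
      change L0 v ≤ dn (L0 v) (H0 v) m (TB A b (it A b L0 H0 m k).2 v) ∧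
        dn (L0 v) (H0 v) m (TB A b (it A b L0 H0 m k).2 v) ≤
          up (L0 v) (H0 v) m (TB A b (it A b L0 H0 m k).1 v) ∧
        up (L0 v) (H0 v) m (TB A b (it A b L0 H0 m k).1 v) ≤ H0 v
      exact ⟨k1.1, k1.2.1.trans (e2.trans k2.2.2.1), k2.2.2.2.1⟩
    intro v
    refine ⟨(hA v).1, (hA v).2.1, (hA v).2.2, ?_, ?_⟩
    · change dn (L0 v) (H0 v) m (TB A b (it A b L0 H0 m k).2 v) ≤
        dn (L0 v) (H0 v) m (TB A b (it A b L0 H0 m (k + 1)).2 v)
      refine (key v _ _ (hlow _ (fun u => (ih u).2.2.1) v)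
        (Mon_TB A b _ _ (fun u => (ih u).2.2.2.2) v)
        (hup _ (fun u => (hA u).1.trans (hA u).2.1) v)).2.2.2.2.1
    · change up (L0 v) (H0 v) m (TB A b (it A b L0 H0 m (k + 1)).1 v) ≤
        up (L0 v) (H0 v) m (TB A b (it A b L0 H0 m k).1 v)
      refine (key v _ _ (hlow _ (fun u => (hA u).2.1.trans (hA u).2.2) v)
        (Mon_TB A b _ _ (fun u => (ih u).2.2.2.1) v)
        (hup _ (fun u => (ih u).1) v)).2.2.2.2.2

end Pool.Agent.Lib.MP_c29043_lc.SWC
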