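import Pool.Agent.Lib.MP_c29043_lc.SWC.Spec

/-!
# MP_c29043_lc, project SWC: the algorithm runs in polynomial time
-/

set_option autoImplicit false

open N68a2faeb N487b59b3 Pool.Agent.Lib.PolyTime

namespace Pool.Agent.Lib.MP_c29043_lc.SWC

open Pool.Agent.Lib.MP_c29043_lc

private theorem PtM_filter_le {β : Type} [N487b59b3 β] (p : β → Bool) (l : List β) :
    sz (l.filter p) ≤ sz l := by
  induction l with
  | nil => exact le_rfl
  | cons b l ih =>
    rw [List.filter_cons, sz_cons]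
    split_ifs
    · rw [sz_cons]; omega
    · omega

section pt

variable {α : Type} [N487b59b3 α]

private theorem PtM_src (h1 : CR.S_PtB) {A : α → List ((ℕ × ℕ) × ℕ)} {R : α → List ℕ}
    (hA : IsPolyTime A) (hR : IsPolyTime R) : IsPolyTime (fun a => CR.src (A a) (R a)) :=
  pt_comp (g := fun p : List ((ℕ × ℕ) × ℕ) × List ℕ => CR.src p.1 p.2)
    (f := fun a => (A a, R a)) h1 (pt_pair hA hR)

private theorem PtM_inn {A : α → List ((ℕ × ℕ) × ℕ)} {X : α → List ℕ}
    (hA : IsPolyTime A) (hX : IsPolyTime X) : IsPolyTime (fun a => inn (A a) (X a)) := by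
  unfold inn
  have hX' : IsPolyTime (fun p : α × ((ℕ × ℕ) × ℕ) => X p.1) :=
    pt_comp (g := X) (f := fun p : α × ((ℕ × ℕ) × ℕ) => p.1) hX pt_fst'
  exact pt_filter hA (pt_and (pt_mem (by fun_prop) hX') (pt_mem (by fun_prop) hX'))

private theorem PtM_comp0 (h2 : S_PtS) :
    IsPolyTime (fun p : (List ℕ × List ((ℕ × ℕ) × ℕ)) × List (ℕ × ℕ) => comp p.1.1 p.1.2 p.2) := by
  have e1 : IsPolyTime (fun p : (List ℕ × List ((ℕ × ℕ) × ℕ)) × List (ℕ × ℕ) =>
      tab p.1.1 fun v => min (vec p.2 v) (wts p.1.2)) := by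
    fun_prop
  have e2 : IsPolyTime (fun p : (List ℕ × List ((ℕ × ℕ) × ℕ)) × List (ℕ × ℕ) =>
      sol p.1.1 p.1.2 (tab p.1.1 fun v => min (vec p.2 v) (wts p.1.2))) :=
    pt_comp (g := fun p : (List ℕ × List ((ℕ × ℕ) × ℕ)) × List (ℕ × ℕ) => sol p.1.1 p.1.2 p.2)
      (f := fun p : (List ℕ × List ((ℕ × ℕ) × ℕ)) × List (ℕ × ℕ) =>
        (p.1, tab p.1.1 fun v => min (vec p.2 v) (wts p.1.2))) h2 (pt_pair (by fun_prop) e1)
  have e3 : IsPolyTime (fun q : ((List ℕ × List ((ℕ × ℕ) × ℕ)) × List (ℕ × ℕ)) × ℕ =>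
      vec (sol q.1.1.1 q.1.1.2 (tab q.1.1.1 fun v => min (vec q.1.2 v) (wts q.1.1.2))) q.2) :=
    pt_vec (pt_comp (g := fun p : (List ℕ × List ((ℕ × ℕ) × ℕ)) × List (ℕ × ℕ) =>
        sol p.1.1 p.1.2 (tab p.1.1 fun v => min (vec p.2 v) (wts p.1.2)))
      (f := fun q : ((List ℕ × List ((ℕ × ℕ) × ℕ)) × List (ℕ × ℕ)) × ℕ => q.1) e2 pt_fst') pt_snd'
  have e4 : IsPolyTime (fun q : ((List ℕ × List ((ℕ × ℕ) × ℕ)) × List (ℕ × ℕ)) × ℕ =>
      vec q.1.2 q.2) := by
    fun_prop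
  unfold comp
  exact pt_tab (by fun_prop) (pt_max e4 e3)

private theorem PtM_comp (h2 : S_PtS) {V : α → List ℕ} {A : α → List ((ℕ × ℕ) × ℕ)}
    {bl : α → List (ℕ × ℕ)} (hV : IsPolyTime V) (hA : IsPolyTime A) (hb : IsPolyTime bl) :
    IsPolyTime (fun a => comp (V a) (A a) (bl a)) :=
  pt_comp (g := fun p : (List ℕ × List ((ℕ × ℕ) × ℕ)) × List (ℕ × ℕ) => comp p.1.1 p.1.2 p.2)
    (f := fun a => ((V a, A a), bl a)) (PtM_comp0 h2) (pt_pair (pt_pair hV hA) hb)

end pt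

/-- the argument of one step: the digraph, the current pair, an element of the list -/
private abbrev PtM_Arg : Type := List ((ℕ × ℕ) × ℕ) × ((List ℕ × List (ℕ × ℕ)) × ℕ)

private theorem PtM_stp (h1 : CR.S_PtB) (h2 : S_PtS) :
    IsPolyTime (fun p : PtM_Arg => stp p.1 p.2.1) := by
  have h3 : IsPolyTime (fun p : PtM_Arg => CR.src p.1 p.2.1.1) :=
    PtM_src h1 (by fun_prop) (by fun_prop)
  have h3' : IsPolyTime (fun q : PtM_Arg × ℕ => CR.src q.1.1 q.1.2.1.1) :=
    pt_comp (g := fun p : PtM_Arg => CR.src p.1 p.2.1.1) (f := fun q : PtM_Arg × ℕ => q.1)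
      h3 pt_fst'
  have h4 : IsPolyTime (fun p : PtM_Arg => tab (CR.src p.1 p.2.1.1) fun u => T p.1 (vec p.2.1.2) u) :=
    pt_tab h3 (by fun_prop)
  have h5 : IsPolyTime (fun p : PtM_Arg => comp (CR.src p.1 p.2.1.1)
      (inn p.1 (CR.src p.1 p.2.1.1)) (tab (CR.src p.1 p.2.1.1) fun u => T p.1 (vec p.2.1.2) u)) :=
    PtM_comp h2 h3 (PtM_inn (by fun_prop) h3) h4
  have h6 : IsPolyTime (fun q : PtM_Arg × ℕ => vec (comp (CR.src q.1.1 q.1.2.1.1)
      (inn q.1.1 (CR.src q.1.1 q.1.2.1.1))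
      (tab (CR.src q.1.1 q.1.2.1.1) fun u => T q.1.1 (vec q.1.2.1.2) u)) q.2) :=
    pt_vec (pt_comp (g := fun p : PtM_Arg => comp (CR.src p.1 p.2.1.1)
      (inn p.1 (CR.src p.1 p.2.1.1)) (tab (CR.src p.1 p.2.1.1) fun u => T p.1 (vec p.2.1.2) u))
      (f := fun q : PtM_Arg × ℕ => q.1) h5 pt_fst') pt_snd'
  have e1 : IsPolyTime (fun p : PtM_Arg => decide (p.2.1.1 = [])) := by fun_prop
  have e2 : IsPolyTime (fun p : PtM_Arg => p.2.1) := by fun_prop
  have e3 : IsPolyTime (fun p : PtM_Arg => p.2.1.1) := by fun_prop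
  have e4 : IsPolyTime (fun q : PtM_Arg × ℕ => decide (q.2 ∈ CR.src q.1.1 q.1.2.1.1)) :=
    pt_mem (by fun_prop) h3'
  have e5 : IsPolyTime (fun q : PtM_Arg × ℕ => decide (q.2 ∉ CR.src q.1.1 q.1.2.1.1)) :=
    pt_congr (pt_not e4) fun q => by simp
  have e7 : IsPolyTime (fun p : PtM_Arg =>
      p.2.1.1.filter fun u => decide (u ∉ CR.src p.1 p.2.1.1)) :=
    pt_filter e3 e5
  have e8 : IsPolyTime (fun q : PtM_Arg × ℕ => if q.2 ∈ CR.src q.1.1 q.1.2.1.1 then
        vec (comp (CR.src q.1.1 q.1.2.1.1) (inn q.1.1 (CR.src q.1.1 q.1.2.1.1))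
          (tab (CR.src q.1.1 q.1.2.1.1) fun u => T q.1.1 (vec q.1.2.1.2) u)) q.2
        else vec q.1.2.1.2 q.2) :=
    pt_ite e4 h6 (by fun_prop)
  have e9 : IsPolyTime (fun p : PtM_Arg =>
      tab (verts p.1) fun v => min (wts p.1) (if v ∈ CR.src p.1 p.2.1.1 then
        vec (comp (CR.src p.1 p.2.1.1) (inn p.1 (CR.src p.1 p.2.1.1))
          (tab (CR.src p.1 p.2.1.1) fun u => T p.1 (vec p.2.1.2) u)) v
        else vec p.2.1.2 v)) :=
    pt_tab (by fun_prop) (pt_min (by fun_prop) e8)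
  unfold stp
  exact pt_ite e1 e2 (pt_pair e7 e9)

theorem tPtM (h1 : CR.S_PtB) (h2 : S_PtS) : S_PtM := by
  unfold S_PtM
  have hT : IsPolyTime (fun A : List ((ℕ × ℕ) × ℕ) =>
      (verts A, tab (verts A) fun _ => wts A)) := by
    fun_prop
  obtain ⟨q, hq⟩ := exists_size hT
  have hfold : IsPolyTime (fun A : List ((ℕ × ℕ) × ℕ) =>
      (verts A).foldl (fun s _ => stp A s) (verts A, tab (verts A) fun _ => wts A)) := by
    refine pt_foldl (α := List ((ℕ × ℕ) × ℕ)) (g := fun A s (_ : ℕ) => stp A s)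
      (l := fun A => verts A) (s := fun A => (verts A, tab (verts A) fun _ => wts A))
      (PtM_stp h1 h2) (by fun_prop) hT q ?_
    intro A k
    have key : ∀ (l : List ℕ) (s : List ℕ × List (ℕ × ℕ)), sz s.1 ≤ sz (verts A) →
        sz s.2 ≤ sz (tab (verts A) fun _ => wts A) →
        sz (l.foldl (fun s (_ : ℕ) => stp A s) s) ≤
          sz (verts A, tab (verts A) fun _ => wts A) := by
      intro l
      induction l with
      | nil =>
        intro s hs1 hs2
        rw [List.foldl_nil, ← Prod.mk.eta (p := s), sz_pair, sz_pair]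
        omega
      | cons b l ih =>
        intro s hs1 hs2
        rw [List.foldl_cons]
        by_cases hs : s.1 = []
        · have e : stp A s = s := by
            unfold stp
            rw [if_pos hs]
          rw [e]
          exact ih s hs1 hs2
        · apply ih
          · unfold stp
            rw [if_neg hs]
            exact (PtM_filter_le _ _).trans hs1
          · unfold stp
            rw [if_neg hs]
            exact sz_tab_mono _ fun v => min_le_left _ _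
    exact (key _ _ le_rfl le_rfl).trans (hq A)
  unfold alg
  exact pt_snd hfold

end Pool.Agent.Lib.MP_c29043_lc.SWC
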