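import Pool.Agent.Lib.MP_c29043_lc.SWC.Spec

/-!
# The rounds of a stage are polynomial time
-/

set_option autoImplicit false

open N68a2faeb N487b59b3 Pool.Agent.Lib.PolyTime

namespace Pool.Agent.Lib.MP_c29043_lc.SWC

open Pool.Agent.Lib.MP_c29043_lc

theorem PtR_dn_le (l h m t : ℕ) : dn l h m t ≤ l + h := by
  unfold dn
  split_ifs <;> omega

theorem PtR_up_le (l h m t : ℕ) : up l h m t ≤ l + h := by
  unfold up
  split_ifs <;> omega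

/-- the bound of the size of a state after a round -/
theorem PtR_rnd (V : List ℕ) (A : List ((ℕ × ℕ) × ℕ)) (bl l0 h0 : List (ℕ × ℕ)) (m : ℕ)
    (p : List (ℕ × ℕ) × List (ℕ × ℕ)) :
    sz (rnd V A bl l0 h0 m p) ≤ 3 * sz (tab V (fun v => vec l0 v + vec h0 v)) + 1 := by
  unfold rnd
  rw [sz_pair]
  have h1 := sz_tab_mono V (fun v => PtR_dn_le (vec l0 v) (vec h0 v) m (TB A (vec bl) (vec p.2) v))
  have h2 := sz_tab_mono V (fun v => PtR_up_le (vec l0 v) (vec h0 v) m (TB A (vec bl) (vec p.1) v))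
  omega

/-- the inner fold -/
theorem PtR_inner (V : List ℕ) (A : List ((ℕ × ℕ) × ℕ)) (bl l0 h0 : List (ℕ × ℕ)) (m : ℕ)
    (L : List ℕ) (s : List (ℕ × ℕ) × List (ℕ × ℕ)) (C : ℕ) (hs : sz s ≤ C)
    (hC : 3 * sz (tab V (fun v => vec l0 v + vec h0 v)) + 1 ≤ C) :
    sz (L.foldl (fun p _ => rnd V A bl l0 h0 m p) s) ≤ C := by
  induction L generalizing s with
  | nil => exact hs
  | cons b L ih =>
    rw [List.foldl_cons]
    exact ih _ ((PtR_rnd V A bl l0 h0 m s).trans hC)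

/-- the outer fold -/
theorem PtR_outer (V : List ℕ) (A : List ((ℕ × ℕ) × ℕ)) (bl l0 h0 : List (ℕ × ℕ)) (m : ℕ)
    (L' L : List ℕ) (s : List (ℕ × ℕ) × List (ℕ × ℕ)) (C : ℕ) (hs : sz s ≤ C)
    (hC : 3 * sz (tab V (fun v => vec l0 v + vec h0 v)) + 1 ≤ C) :
    sz (L.foldl (fun p _ => L'.foldl (fun p _ => rnd V A bl l0 h0 m p) p) s) ≤ C := by
  induction L generalizing s with
  | nil => exact hs
  | cons b L ih =>
    rw [List.foldl_cons]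
    exact ih _ (PtR_inner V A bl l0 h0 m L' s C hs hC)

theorem tPtR : S_PtR := by
  unfold S_PtR
  have hb : IsPolyTime
      fun p : (List ℕ × List ((ℕ × ℕ) × ℕ)) ×
          ((List (ℕ × ℕ) × (List (ℕ × ℕ) × List (ℕ × ℕ))) × ℕ) =>
        tab p.1.1 (fun v => vec p.2.1.2.1 v + vec p.2.1.2.2 v) := by
    fun_prop
  have hs : IsPolyTime
      fun p : (List ℕ × List ((ℕ × ℕ) × ℕ)) ×
          ((List (ℕ × ℕ) × (List (ℕ × ℕ) × List (ℕ × ℕ))) × ℕ) =>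
        (p.2.1.2.1, p.2.1.2.2) := by
    fun_prop
  have hl : IsPolyTime
      fun p : (List ℕ × List ((ℕ × ℕ) × ℕ)) ×
          ((List (ℕ × ℕ) × (List (ℕ × ℕ) × List (ℕ × ℕ))) × ℕ) =>
        V2 p.1.1 := by
    unfold V2
    fun_prop
  have hg : IsPolyTime
      fun r : (((List ℕ × List ((ℕ × ℕ) × ℕ)) ×
          ((List (ℕ × ℕ) × (List (ℕ × ℕ) × List (ℕ × ℕ))) × ℕ)) ×
            ((List (ℕ × ℕ) × List (ℕ × ℕ)) × ℕ)) × ((List (ℕ × ℕ) × List (ℕ × ℕ)) × ℕ) =>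
        rnd r.1.1.1.1 r.1.1.1.2 r.1.1.2.1.1 r.1.1.2.1.2.1 r.1.1.2.1.2.2 r.1.1.2.2 r.2.1 := by
    unfold rnd dn up TB
    fun_prop
  obtain ⟨q1, hq1⟩ := exists_size hb
  obtain ⟨q2, hq2⟩ := exists_size hs
  have hb' : IsPolyTime
      fun q : ((List ℕ × List ((ℕ × ℕ) × ℕ)) ×
          ((List (ℕ × ℕ) × (List (ℕ × ℕ) × List (ℕ × ℕ))) × ℕ)) ×
            ((List (ℕ × ℕ) × List (ℕ × ℕ)) × ℕ) =>
        tab q.1.1.1 (fun v => vec q.1.2.1.2.1 v + vec q.1.2.1.2.2 v) := by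
    fun_prop
  have hs' : IsPolyTime
      fun q : ((List ℕ × List ((ℕ × ℕ) × ℕ)) ×
          ((List (ℕ × ℕ) × (List (ℕ × ℕ) × List (ℕ × ℕ))) × ℕ)) ×
            ((List (ℕ × ℕ) × List (ℕ × ℕ)) × ℕ) => q.2.1 := by
    fun_prop
  have hl' : IsPolyTime
      fun q : ((List ℕ × List ((ℕ × ℕ) × ℕ)) ×
          ((List (ℕ × ℕ) × (List (ℕ × ℕ) × List (ℕ × ℕ))) × ℕ)) ×
            ((List (ℕ × ℕ) × List (ℕ × ℕ)) × ℕ) => V2 q.1.1.1 := by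
    unfold V2
    fun_prop
  obtain ⟨q3, hq3⟩ := exists_size hb'
  obtain ⟨q4, hq4⟩ := exists_size hs'
  have hin : IsPolyTime
      fun q : ((List ℕ × List ((ℕ × ℕ) × ℕ)) ×
          ((List (ℕ × ℕ) × (List (ℕ × ℕ) × List (ℕ × ℕ))) × ℕ)) ×
            ((List (ℕ × ℕ) × List (ℕ × ℕ)) × ℕ) =>
        (V2 q.1.1.1).foldl (fun p _ => rnd q.1.1.1 q.1.1.2 q.1.2.1.1 q.1.2.1.2.1 q.1.2.1.2.2
          q.1.2.2 p) q.2.1 := by
    refine pt_foldl (g := fun (q : ((List ℕ × List ((ℕ × ℕ) × ℕ)) ×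
          ((List (ℕ × ℕ) × (List (ℕ × ℕ) × List (ℕ × ℕ))) × ℕ)) ×
            ((List (ℕ × ℕ) × List (ℕ × ℕ)) × ℕ))
      (s : List (ℕ × ℕ) × List (ℕ × ℕ)) (_ : ℕ) =>
        rnd q.1.1.1 q.1.1.2 q.1.2.1.1 q.1.2.1.2.1 q.1.2.1.2.2 q.1.2.2 s) hg hl' hs'
      (q4 + (3 * q3 + 1)) ?_
    intro a k
    have h2 := hq3 a
    have h3 := hq4 a
    have h1 := PtR_inner a.1.1.1 a.1.1.2 a.1.2.1.1 a.1.2.1.2.1 a.1.2.1.2.2 a.1.2.2
      ((V2 a.1.1.1).take k) a.2.1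
      (sz a.2.1 + (3 * sz (tab a.1.1.1 (fun v => vec a.1.2.1.2.1 v + vec a.1.2.1.2.2 v)) + 1))
      (Nat.le_add_right _ _) (Nat.le_add_left _ _)
    simp only [Polynomial.eval_add, Polynomial.eval_mul, Polynomial.eval_ofNat,
      Polynomial.eval_one]
    refine h1.trans ?_
    omega
  refine pt_foldl (g := fun (p : (List ℕ × List ((ℕ × ℕ) × ℕ)) ×
          ((List (ℕ × ℕ) × (List (ℕ × ℕ) × List (ℕ × ℕ))) × ℕ))
    (s : List (ℕ × ℕ) × List (ℕ × ℕ)) (_ : ℕ) =>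
      (V2 p.1.1).foldl (fun s' _ => rnd p.1.1 p.1.2 p.2.1.1 p.2.1.2.1 p.2.1.2.2 p.2.2 s') s)
    hin hl hs (q2 + (3 * q1 + 1)) ?_
  intro a k
  have h2 := hq1 a
  have h3 := hq2 a
  have h1 := PtR_outer a.1.1 a.1.2 a.2.1.1 a.2.1.2.1 a.2.1.2.2 a.2.2 (V2 a.1.1)
    ((V2 a.1.1).take k) (a.2.1.2.1, a.2.1.2.2)
    (sz (a.2.1.2.1, a.2.1.2.2) +
      (3 * sz (tab a.1.1 (fun v => vec a.2.1.2.1 v + vec a.2.1.2.2 v)) + 1))
    (Nat.le_add_right _ _) (Nat.le_add_left _ _)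
  simp only [Polynomial.eval_add, Polynomial.eval_mul, Polynomial.eval_ofNat,
    Polynomial.eval_one]
  refine h1.trans ?_
  omega

end Pool.Agent.Lib.MP_c29043_lc.SWC
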