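import Pool.Agent.Lib.MP_c29043_lc.SWC.Spec

/-!
# MP_c29043_lc, project SWC: the solution for small lower bounds in polynomial time
-/

set_option autoImplicit false

open N68a2faeb N487b59b3 Pool.Agent.Lib.PolyTime

namespace Pool.Agent.Lib.MP_c29043_lc.SWC

open Pool.Agent.Lib.MP_c29043_lc

section pt

variable {α : Type} [N487b59b3 α]

private theorem PtS_half_eq (n : ℕ) : ofBits (bitsOf n).tail = n / 2 := by
  have h1 := ofBits_tail (bitsOf n)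
  rw [ofBits_bitsOf] at h1
  cases h : (bitsOf n).headD false
  · rw [h, cond_false] at h1
    omega
  · rw [h, cond_true] at h1
    omega

private theorem PtS_half {f : α → ℕ} (hf : IsPolyTime f) : IsPolyTime (fun a => f a / 2) :=
  pt_congr (pt_ofBits (pt_tail (pt_bitsOf hf))) (fun _ => PtS_half_eq _)

private theorem PtS_nxt {A : α → List ((ℕ × ℕ) × ℕ)} {lam : α → ℕ} (hA : IsPolyTime A)
    (hl : IsPolyTime lam) : IsPolyTime (fun a => SW.nxt (A a) (lam a)) := by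
  unfold SW.nxt
  fun_prop

private theorem PtS_rnds (hR : S_PtR) {V : α → List ℕ} {A : α → List ((ℕ × ℕ) × ℕ)}
    {bl l h : α → List (ℕ × ℕ)} {m : α → ℕ} (hV : IsPolyTime V) (hA : IsPolyTime A)
    (hb : IsPolyTime bl) (hl : IsPolyTime l) (hh : IsPolyTime h) (hm : IsPolyTime m) :
    IsPolyTime (fun a => rnds (V a) (A a) (bl a) (l a) (h a) (m a)) :=
  pt_comp (g := fun p : (List ℕ × List ((ℕ × ℕ) × ℕ)) ×
      ((List (ℕ × ℕ) × (List (ℕ × ℕ) × List (ℕ × ℕ))) × ℕ) =>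
      rnds p.1.1 p.1.2 p.2.1.1 p.2.1.2.1 p.2.1.2.2 p.2.2)
    (f := fun a => ((V a, A a), ((bl a, (l a, h a)), m a))) hR
    (pt_pair (pt_pair hV hA) (pt_pair (pt_pair hb (pt_pair hl hh)) hm))

private theorem PtS_cond {m : α → ℕ} {L0 H0 L H : α → List (ℕ × ℕ)} {v : α → ℕ}
    (hm : IsPolyTime m) (h1 : IsPolyTime L0)
    (h2 : IsPolyTime H0) (h3 : IsPolyTime L) (h4 : IsPolyTime H) (hv : IsPolyTime v) :
    IsPolyTime (fun a => decide (vec (H a) (v a) = vec (L0 a) (v a) + m a ∨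
      vec (L a) (v a) = vec (H0 a) (v a) - m a)) :=
  pt_congr (pt_or (pt_eq (pt_vec h4 hv) (pt_add (pt_vec h1 hv) hm))
    (pt_eq (pt_vec h3 hv) (pt_sub (pt_vec h2 hv) hm)))
    (fun a => (Bool.decide_or _ _).symm)

private theorem PtS_mx {L0 H0 L H : α → List (ℕ × ℕ)} {v : α → ℕ}
    (h1 : IsPolyTime L0)
    (h2 : IsPolyTime H0) (h3 : IsPolyTime L) (h4 : IsPolyTime H) (hv : IsPolyTime v) :
    IsPolyTime (fun a => max (vec (L a) (v a))
      (min ((vec (L0 a) (v a) + vec (H0 a) (v a)) / 2) (vec (H a) (v a)))) :=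
  pt_max (pt_vec h3 hv) (pt_min (PtS_half (pt_add (pt_vec h1 hv) (pt_vec h2 hv))) (pt_vec h4 hv))

private theorem PtS_nl {m : α → ℕ} {L0 H0 L H : α → List (ℕ × ℕ)} {v : α → ℕ}
    (hm : IsPolyTime m) (h1 : IsPolyTime L0)
    (h2 : IsPolyTime H0) (h3 : IsPolyTime L) (h4 : IsPolyTime H) (hv : IsPolyTime v) :
    IsPolyTime (fun a => nl (m a) (vec (L0 a)) (vec (H0 a)) (vec (L a)) (vec (H a)) (v a)) := by
  unfold nl
  exact pt_ite (PtS_cond hm h1 h2 h3 h4 hv) (pt_vec h3 hv) (PtS_mx h1 h2 h3 h4 hv)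

private theorem PtS_nh {m : α → ℕ} {L0 H0 L H : α → List (ℕ × ℕ)} {v : α → ℕ}
    (hm : IsPolyTime m) (h1 : IsPolyTime L0)
    (h2 : IsPolyTime H0) (h3 : IsPolyTime L) (h4 : IsPolyTime H) (hv : IsPolyTime v) :
    IsPolyTime (fun a => nh (m a) (vec (L0 a)) (vec (H0 a)) (vec (L a)) (vec (H a)) (v a)) := by
  unfold nh
  exact pt_ite (PtS_cond hm h1 h2 h3 h4 hv) (pt_vec h4 hv) (PtS_mx h1 h2 h3 h4 hv)

private theorem PtS_stg (hR : S_PtR) {V : α → List ℕ} {A : α → List ((ℕ × ℕ) × ℕ)}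
    {bl : α → List (ℕ × ℕ)}
    {s : α → ℕ × (List (ℕ × ℕ) × List (ℕ × ℕ))} (hV : IsPolyTime V) (hA : IsPolyTime A)
    (hb : IsPolyTime bl) (hs : IsPolyTime s) :
    IsPolyTime (fun a => stg (V a) (A a) (bl a) (s a)) := by
  have hl : IsPolyTime (fun a => (s a).2.1) := pt_fst (pt_snd hs)
  have hh : IsPolyTime (fun a => (s a).2.2) := pt_snd (pt_snd hs)
  have hn : IsPolyTime (fun a => SW.nxt (A a) (s a).1) := PtS_nxt hA (pt_fst hs)
  have hr : IsPolyTime (fun a => rnds (V a) (A a) (bl a) (s a).2.1 (s a).2.2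
      (SW.nxt (A a) (s a).1)) :=
    PtS_rnds hR hV hA hb hl hh hn
  have hl' : IsPolyTime (fun p : α × ℕ => (s p.1).2.1) := pt_comp (g := fun a => (s a).2.1) hl pt_fst'
  have hh' : IsPolyTime (fun p : α × ℕ => (s p.1).2.2) := pt_comp (g := fun a => (s a).2.2) hh pt_fst'
  have hn' : IsPolyTime (fun p : α × ℕ => SW.nxt (A p.1) (s p.1).1) :=
    pt_comp (g := fun a => SW.nxt (A a) (s a).1) hn pt_fst'
  have hr1 : IsPolyTime (fun p : α × ℕ =>
      (rnds (V p.1) (A p.1) (bl p.1) (s p.1).2.1 (s p.1).2.2 (SW.nxt (A p.1) (s p.1).1)).1) :=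
    pt_comp (g := fun a => (rnds (V a) (A a) (bl a) (s a).2.1 (s a).2.2
      (SW.nxt (A a) (s a).1)).1) (pt_fst hr) pt_fst'
  have hr2 : IsPolyTime (fun p : α × ℕ =>
      (rnds (V p.1) (A p.1) (bl p.1) (s p.1).2.1 (s p.1).2.2 (SW.nxt (A p.1) (s p.1).1)).2) :=
    pt_comp (g := fun a => (rnds (V a) (A a) (bl a) (s a).2.1 (s a).2.2
      (SW.nxt (A a) (s a).1)).2) (pt_snd hr) pt_fst'
  unfold stg
  exact pt_pair hn (pt_pair
    (pt_tab hV (PtS_nl hn' hl' hh' hr1 hr2 pt_snd'))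
    (pt_tab hV (PtS_nh hn' hl' hh' hr1 hr2 pt_snd')))

end pt

/-! ### Bounds -/

private theorem PtS_vec_tab_le {V : List ℕ} {f : ℕ → ℕ} {W : ℕ} (hf : ∀ v, f v ≤ W) (v : ℕ) :
    vec (tab V f) v ≤ W := by
  by_cases hv : v ∈ V
  · rw [vec_tab hv]
    exact hf v
  · rw [vec_tab_zero hv]
    exact Nat.zero_le _

private theorem PtS_dn_le {l h m t W : ℕ} (h1 : l ≤ W) (h2 : h ≤ W) : dn l h m t ≤ W := by
  unfold dn
  split_ifs <;> omega

private theorem PtS_up_le {l h m t W : ℕ} (h1 : l ≤ W) (h2 : h ≤ W) : up l h m t ≤ W := by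
  unfold up
  split_ifs <;> omega

private theorem PtS_rnds_le {V : List ℕ} {A : List ((ℕ × ℕ) × ℕ)} {bl l0 h0 : List (ℕ × ℕ)}
    {m W : ℕ} (h1 : ∀ v, vec l0 v ≤ W) (h2 : ∀ v, vec h0 v ≤ W) :
    (∀ v, vec (rnds V A bl l0 h0 m).1 v ≤ W) ∧ ∀ v, vec (rnds V A bl l0 h0 m).2 v ≤ W := by
  have key : ∀ (l : List ℕ) (p : List (ℕ × ℕ) × List (ℕ × ℕ)),
      ((∀ v, vec p.1 v ≤ W) ∧ (∀ v, vec p.2 v ≤ W)) →
      ((∀ v, vec (l.foldl (fun p _ => rnd V A bl l0 h0 m p) p).1 v ≤ W) ∧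
        ∀ v, vec (l.foldl (fun p _ => rnd V A bl l0 h0 m p) p).2 v ≤ W) := by
    intro l
    induction l with
    | nil => intro p hp; exact hp
    | cons b l ih =>
      intro p hp
      rw [List.foldl_cons]
      exact ih _ ⟨fun v => PtS_vec_tab_le (fun v => PtS_dn_le (h1 v) (h2 v)) v,
        fun v => PtS_vec_tab_le (fun v => PtS_up_le (h1 v) (h2 v)) v⟩
  have key2 : ∀ (l : List ℕ) (p : List (ℕ × ℕ) × List (ℕ × ℕ)),
      ((∀ v, vec p.1 v ≤ W) ∧ (∀ v, vec p.2 v ≤ W)) →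
      ((∀ v, vec (l.foldl (fun p _ => (V2 V).foldl (fun p _ => rnd V A bl l0 h0 m p) p) p).1 v ≤ W) ∧
        ∀ v, vec (l.foldl (fun p _ => (V2 V).foldl (fun p _ => rnd V A bl l0 h0 m p) p) p).2 v
          ≤ W) := by
    intro l
    induction l with
    | nil => intro p hp; exact hp
    | cons b l ih =>
      intro p hp
      rw [List.foldl_cons]
      exact ih _ (key _ _ hp)
  exact key2 _ _ ⟨h1, h2⟩

private theorem PtS_nxt_le (A : List ((ℕ × ℕ) × ℕ)) (lam : ℕ) : SW.nxt A lam ≤ wts A := by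
  unfold SW.nxt
  apply lmax_le
  intro c hc
  obtain ⟨e, he, rfl⟩ := List.mem_map.mp hc
  exact le_wts e (List.mem_filter.mp he).1

/-- the states of the fold -/
private structure PtS_Bnd (V : List ℕ) (A : List ((ℕ × ℕ) × ℕ))
    (s : ℕ × (List (ℕ × ℕ) × List (ℕ × ℕ))) : Prop where
  wt : s.1 ≤ wts A
  l : ∃ f : ℕ → ℕ, s.2.1 = tab V f ∧ ∀ v, f v ≤ wts A
  h : ∃ f : ℕ → ℕ, s.2.2 = tab V f ∧ ∀ v, f v ≤ wts A

private theorem PtS_ini (V : List ℕ) (A : List ((ℕ × ℕ) × ℕ)) : PtS_Bnd V A (ini V A) :=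
  ⟨le_rfl, ⟨_, rfl, fun _ => Nat.zero_le _⟩, ⟨_, rfl, fun _ => le_rfl⟩⟩

private theorem PtS_step {V : List ℕ} {A : List ((ℕ × ℕ) × ℕ)} (bl : List (ℕ × ℕ))
    {s : ℕ × (List (ℕ × ℕ) × List (ℕ × ℕ))}
    (hs : PtS_Bnd V A s) : PtS_Bnd V A (stg V A bl s) := by
  have hl : ∀ v, vec s.2.1 v ≤ wts A := by
    obtain ⟨f, hf, hf'⟩ := hs.l
    intro v
    rw [hf]
    exact PtS_vec_tab_le hf' v
  have hh : ∀ v, vec s.2.2 v ≤ wts A := by
    obtain ⟨f, hf, hf'⟩ := hs.h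
    intro v
    rw [hf]
    exact PtS_vec_tab_le hf' v
  obtain ⟨hr1, hr2⟩ := PtS_rnds_le (V := V) (A := A) (bl := bl) (m := SW.nxt A s.1) hl hh
  refine ⟨PtS_nxt_le A s.1, ⟨_, rfl, fun v => ?_⟩, ⟨_, rfl, fun v => ?_⟩⟩
  · have h3 := hr1 v
    have h4 := hr2 v
    unfold nl
    split_ifs
    · exact h3
    · exact max_le h3 ((min_le_right _ _).trans h4)
  · have h3 := hr1 v
    have h4 := hr2 v
    unfold nh
    split_ifs
    · exact h4
    · exact max_le h3 ((min_le_right _ _).trans h4)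

private theorem PtS_fold (V : List ℕ) (A l : List ((ℕ × ℕ) × ℕ)) (bl : List (ℕ × ℕ)) :
    ∀ s : ℕ × (List (ℕ × ℕ) × List (ℕ × ℕ)), PtS_Bnd V A s →
      PtS_Bnd V A (l.foldl (fun s _ => stg V A bl s) s) := by
  induction l with
  | nil => intro s hs; exact hs
  | cons b l ih =>
    intro s hs
    rw [List.foldl_cons]
    exact ih _ (PtS_step bl hs)

private theorem PtS_sz {V : List ℕ} {A : List ((ℕ × ℕ) × ℕ)}
    {s : ℕ × (List (ℕ × ℕ) × List (ℕ × ℕ))} (hs : PtS_Bnd V A s) :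
    sz s ≤ sz (wts A, (tab V (fun _ => wts A), tab V (fun _ => wts A))) := by
  obtain ⟨a, l, h⟩ := s
  obtain ⟨f, hf, hf'⟩ := hs.l
  obtain ⟨g, hg, hg'⟩ := hs.h
  have h1 : sz a ≤ sz (wts A) := sz_mono hs.wt
  have h2 : sz l ≤ sz (tab V fun _ => wts A) := by
    rw [show l = tab V f from hf]
    exact sz_tab_mono _ hf'
  have h3 : sz h ≤ sz (tab V fun _ => wts A) := by
    rw [show h = tab V g from hg]
    exact sz_tab_mono _ hg'
  rw [sz_pair, sz_pair, sz_pair, sz_pair]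
  omega

/-- the solution for small lower bounds is computed in polynomial time -/
theorem tPtS (h1 : S_PtR) : S_PtS := by
  unfold S_PtS
  have hV : IsPolyTime (fun p : (List ℕ × List ((ℕ × ℕ) × ℕ)) × List (ℕ × ℕ) => p.1.1) :=
    pt_fst pt_fst'
  have hA : IsPolyTime (fun p : (List ℕ × List ((ℕ × ℕ) × ℕ)) × List (ℕ × ℕ) => p.1.2) :=
    pt_snd pt_fst'
  have hB : IsPolyTime (fun p : (List ℕ × List ((ℕ × ℕ) × ℕ)) × List (ℕ × ℕ) =>
      (wts p.1.2, (tab p.1.1 (fun _ => wts p.1.2), tab p.1.1 (fun _ => wts p.1.2)))) := by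
    have hW : IsPolyTime (fun p : (List ℕ × List ((ℕ × ℕ) × ℕ)) × List (ℕ × ℕ) => wts p.1.2) :=
      pt_wts hA
    have hT : IsPolyTime (fun p : (List ℕ × List ((ℕ × ℕ) × ℕ)) × List (ℕ × ℕ) =>
        tab p.1.1 (fun _ => wts p.1.2)) :=
      pt_tab hV (pt_comp (g := fun p : (List ℕ × List ((ℕ × ℕ) × ℕ)) × List (ℕ × ℕ) =>
        wts p.1.2) hW pt_fst')
    exact pt_pair hW (pt_pair hT hT)
  obtain ⟨q, hq⟩ := exists_size hB
  have hini : IsPolyTime (fun p : (List ℕ × List ((ℕ × ℕ) × ℕ)) × List (ℕ × ℕ) =>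
      ini p.1.1 p.1.2) := by
    unfold ini
    have hW : IsPolyTime (fun p : (List ℕ × List ((ℕ × ℕ) × ℕ)) × List (ℕ × ℕ) => wts p.1.2) :=
      pt_wts hA
    refine pt_pair hW (pt_pair (pt_tab hV (pt_const 0)) (pt_tab hV
      (pt_comp (g := fun p : (List ℕ × List ((ℕ × ℕ) × ℕ)) × List (ℕ × ℕ) =>
        wts p.1.2) hW pt_fst')))
  have hfold : IsPolyTime (fun p : (List ℕ × List ((ℕ × ℕ) × ℕ)) × List (ℕ × ℕ) =>
      p.1.2.foldl (fun s _ => stg p.1.1 p.1.2 p.2 s) (ini p.1.1 p.1.2)) := by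
    refine pt_foldl (α := (List ℕ × List ((ℕ × ℕ) × ℕ)) × List (ℕ × ℕ))
      (g := fun p s (_ : (ℕ × ℕ) × ℕ) => stg p.1.1 p.1.2 p.2 s) ?_ hA hini q ?_
    · exact PtS_stg h1 (pt_fst (pt_fst pt_fst')) (pt_snd (pt_fst pt_fst')) (pt_snd pt_fst')
        (pt_fst pt_snd')
    · intro p k
      exact (PtS_sz (PtS_fold p.1.1 p.1.2 _ p.2 _ (PtS_ini p.1.1 p.1.2))).trans (hq p)
  unfold sol
  exact pt_fst (pt_snd hfold)

end Pool.Agent.Lib.MP_c29043_lc.SWC
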