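import Pool.Agent.Lib.MP_c29043_lc.SWC.Spec

/-!
# SWC/StgX: the stage, without S_Mid
-/

set_option autoImplicit false

open N68a2faeb N487b59b3 Pool.Agent.Lib.PolyTime

namespace Pool.Agent.Lib.MP_c29043_lc.SWC

open Pool.Agent.Lib.MP_c29043_lc

private theorem Mid_anti {A : List ((ℕ × ℕ) × ℕ)} {b x y : ℕ → ℕ} (h : ∀ v, x v ≤ y v) (v : ℕ) :
    TB A b y v ≤ TB A b x v := by
  have := T_anti (A := A) h v
  unfold TB
  omega

/-- the tails of the heavy arcs into a middle node are high or middle -/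
private theorem Mid_tail {A : List ((ℕ × ℕ) × ℕ)} {b : ℕ → ℕ} {lam m : ℕ} {L0 H0 L H : ℕ → ℕ}
    (hlt : m < lam) (hK : ∀ v, Kind A b lam m L0 H0 L H v) {v : ℕ}
    (ha : TB A b H v < L0 v + (lam - m)) {e : (ℕ × ℕ) × ℕ} (he : e ∈ A)
    (hev : e.1.2 = v) (hc : e.2 = L0 e.1.1 + L0 v + lam) :
    (L e.1.1 = L0 e.1.1 + (lam - m) ∧ nl m L0 H0 L H e.1.1 = L0 e.1.1 + (lam - m)) ∨
    (L e.1.1 ≤ nl m L0 H0 L H e.1.1 ∧ nl m L0 H0 L H e.1.1 ≤ H e.1.1 ∧
      nl m L0 H0 L H e.1.1 = max (L e.1.1) (min (L0 e.1.1 + lam / 2) (H e.1.1)) ∧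
      nh m L0 H0 L H e.1.1 = nl m L0 H0 L H e.1.1) := by
  have h9 := le_T (x := H) he
  rw [hev] at h9
  have h10 : T A H v ≤ TB A b H v := le_max_right _ _
  rcases hK e.1.1 with ⟨g0, g1, g2, g3, g4⟩ | ⟨g0, g1, g2, g3, g4, g5⟩ |
    ⟨g0, g1, g2, g3, g4, g5⟩ | ⟨g, g0, g1, g2, g3, g4, g5, g6⟩ |
    ⟨g0, g1, g2, g3, g4, g5, g6, g7, g8, g9, g10, g11⟩
  · omega
  · omega
  · exact Or.inl ⟨g1, g3⟩
  · omega
  · exact Or.inr ⟨g8, g9, g3, g4⟩

/-- the claim for middle nodes -/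
private theorem Mid_main {A : List ((ℕ × ℕ) × ℕ)} {b : ℕ → ℕ} {lam m : ℕ} {L0 H0 L H : ℕ → ℕ}
    (hI : Inv A b lam L0 H0) (hG : SW.Gap A lam m) (hK : ∀ v, Kind A b lam m L0 H0 L H v)
    (hLL : ∀ v, L0 v ≤ L v) (v : ℕ) (h0 : H0 v = L0 v + lam) (ha : TB A b H v < L0 v + (lam - m))
    (hb : L0 v + m < TB A b L v) :
    TB A b (nl m L0 H0 L H) v ≤ nl m L0 H0 L H v ∧ nl m L0 H0 L H v ≤ TB A b (nh m L0 H0 L H) v := by
  have hlt := hG.lt
  have htwo := hG.two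
  have heven := hG.even
  obtain ⟨x, hx⟩ : ∃ x, x = nl m L0 H0 L H v := ⟨_, rfl⟩
  have hv : nh m L0 H0 L H v = x ∧ x = max (TB A b H v) (min (L0 v + lam / 2) (TB A b L v)) ∧
      L0 v + m ≤ x := by
    rcases hK v with ⟨g0, g1, g2, g3, g4⟩ | ⟨g0, g1, g2, g3, g4, g5⟩ |
      ⟨g0, g1, g2, g3, g4, g5⟩ | ⟨g, g0, g1, g2, g3, g4, g5, g6⟩ |
      ⟨g0, g1, g2, g3, g4, g5, g6, g7, g8, g9, g10, g11⟩
    · omega
    · omega
    · omega
    · omega
    · exact ⟨by omega, by omega, by omega⟩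
  obtain ⟨hv1, hv2, hv3⟩ := hv
  have hL0 : ∀ u, L0 u ≤ nl m L0 H0 L H u ∧ nh m L0 H0 L H u ≤ H u := by
    intro u
    rcases hK u with ⟨g0, g1, g2, g3, g4⟩ | ⟨g0, g1, g2, g3, g4, g5⟩ |
      ⟨g0, g1, g2, g3, g4, g5⟩ | ⟨g, g0, g1, g2, g3, g4, g5, g6⟩ |
      ⟨g0, g1, g2, g3, g4, g5, g6, g7, g8, g9, g10, g11⟩
    all_goals exact ⟨by omega, by omega⟩
  have t1 : TB A b H v ≤ TB A b (nh m L0 H0 L H) v := Mid_anti (fun u => (hL0 u).2) v
  have t3 : b v ≤ TB A b H v := le_max_left _ _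
  rw [← hx]
  refine ⟨?_, ?_⟩
  · apply max_le
    · omega
    · apply T_le
      intro e he hev
      have hgu := hL0 e.1.1
      rcases hI.dis e he with hd | ⟨c, hw, hcl, hd⟩
      · rw [hev] at hd
        omega
      · rw [hev] at hd
        rcases Nat.lt_or_ge c lam with hc | hc
        · have hcm := hG.max c hw hc
          omega
        · have hc' : c = lam := le_antisymm hcl hc
          subst hc'
          have tH := le_T (x := H) he
          have tL := le_T (x := L) he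
          rw [hev] at tH tL
          have tH' : T A H v ≤ TB A b H v := le_max_right _ _
          have tL' : T A L v ≤ TB A b L v := le_max_right _ _
          rcases Mid_tail hlt hK ha he hev hd with ⟨_, h3⟩ | ⟨h5, h6, h3, _⟩
          · omega
          · omega
  · by_contra hcon
    push Not at hcon
    have t5 : TB A b H v < min (L0 v + lam / 2) (TB A b L v) := by omega
    have t6 : b v < TB A b L v := by omega
    have t7 : TB A b L v = T A L v := by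
      unfold TB at t6 ⊢
      omega
    have hpos : 0 < T A L v := by omega
    obtain ⟨e, he, hev, h4⟩ := T_attained hpos
    have hgu := hL0 e.1.1
    have hLu := hLL e.1.1
    rcases hI.dis e he with hd | ⟨c, hw, hcl, hd⟩
    · rw [hev] at hd
      omega
    · rw [hev] at hd
      rcases Nat.lt_or_ge c lam with hc | hc
      · have hcm := hG.max c hw hc
        omega
      · have hc' : c = lam := le_antisymm hcl hc
        subst hc'
        have t8 := le_T (x := nh m L0 H0 L H) he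
        rw [hev] at t8
        have t9 : T A (nh m L0 H0 L H) v ≤ TB A b (nh m L0 H0 L H) v := le_max_right _ _
        rcases Mid_tail hlt hK ha he hev hd with ⟨h3, _⟩ | ⟨h5, h6, h3, h7⟩
        · omega
        · omega

private theorem Stg_zero (A : List ((ℕ × ℕ) × ℕ)) (b L0 H0 L H : ℕ → ℕ) (hI : Inv A b 0 L0 H0)
    (hS : Stab A b 0 L0 H0 L H) : Inv A b 0 (nl 0 L0 H0 L H) (nh 0 L0 H0 L H) := by
  have hw : ∀ v, H0 v = L0 v := fun v => by
    rcases hI.width v with h | h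
    · exact h
    · rw [h, Nat.add_zero]
  have hL : ∀ v, L v = L0 v := fun v => by
    have h1 := hS.fl v
    have h2 := hw v
    rw [dn, if_pos (by omega)] at h1
    exact h1
  have hH : ∀ v, H v = L0 v := fun v => by
    have h1 := hS.fh v
    have h2 := hw v
    rw [up, if_pos (by omega)] at h1
    exact h1
  have e1 : nl 0 L0 H0 L H = L0 := by
    funext v
    have h2 := hw v
    have h3 := hL v
    have h4 := hH v
    rw [nl, if_pos (Or.inl (by omega))]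
    exact h3
  have e2 : nh 0 L0 H0 L H = H0 := by
    funext v
    have h2 := hw v
    have h3 := hL v
    have h4 := hH v
    rw [nh, if_pos (Or.inl (by omega))]
    omega
  rw [e1, e2]
  exact hI

/-- **Stg**, from S_Kin and S_Dis alone (Mid is proved above, with the hypothesis `L0 ≤ L`). -/
theorem tStgX (hKin : S_Kin) (hDis : S_Dis) : S_Stg := by
  intro A b lam m L0 H0 L H hI hG hS
  rcases hG with hG | ⟨rfl, rfl⟩
  swap
  · exact Stg_zero A b L0 H0 L H hI hS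
  have hlt := hG.lt
  have htwo := hG.two
  have K := hKin A b lam m L0 H0 L H hI hlt htwo hG.even hS
  have hLL : ∀ v, L0 v ≤ L v := fun v => by
    have h1 := hS.fl v
    unfold dn at h1
    rcases hI.width v with h | h <;> split_ifs at h1 <;> omega
  have hHH : ∀ v, H v ≤ H0 v := fun v => by
    have h1 := hS.fh v
    unfold up at h1
    rcases hI.width v with h | h <;> split_ifs at h1 <;> omega
  have hLn : ∀ v, L v ≤ nl m L0 H0 L H v := fun v => by
    rcases K v with ⟨g0, g1, g2, g3, g4⟩ | ⟨g0, g1, g2, g3, g4, g5⟩ |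
      ⟨g0, g1, g2, g3, g4, g5⟩ | ⟨g, g0, g1, g2, g3, g4, g5, g6⟩ |
      ⟨g0, g1, g2, g3, g4, g5, g6, g7, g8, g9, g10, g11⟩ <;> omega
  have hnH : ∀ v, nh m L0 H0 L H v ≤ H v := fun v => by
    rcases K v with ⟨g0, g1, g2, g3, g4⟩ | ⟨g0, g1, g2, g3, g4, g5⟩ |
      ⟨g0, g1, g2, g3, g4, g5⟩ | ⟨g, g0, g1, g2, g3, g4, g5, g6⟩ |
      ⟨g0, g1, g2, g3, g4, g5, g6, g7, g8, g9, g10, g11⟩ <;> omega
  have hM := Mid_main hI hG K hLL
  refine ⟨hG.wt, fun v => ?_, fun v => ?_, fun v => ?_, ?_⟩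
  · rcases K v with ⟨g0, g1, g2, g3, g4⟩ | ⟨g0, g1, g2, g3, g4, g5⟩ |
      ⟨g0, g1, g2, g3, g4, g5⟩ | ⟨g, g0, g1, g2, g3, g4, g5, g6⟩ |
      ⟨g0, g1, g2, g3, g4, g5, g6, g7, g8, g9, g10, g11⟩ <;> omega
  · have t1 : TB A b (nl m L0 H0 L H) v ≤ TB A b L v := Mid_anti hLn v
    have t2 : TB A b L v ≤ TB A b L0 v := Mid_anti hLL v
    have t3 := hI.up v
    rcases K v with ⟨g0, g1, g2, g3, g4⟩ | ⟨g0, g1, g2, g3, g4, g5⟩ |
      ⟨g0, g1, g2, g3, g4, g5⟩ | ⟨g, g0, g1, g2, g3, g4, g5, g6⟩ |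
      ⟨g0, g1, g2, g3, g4, g5, g6, g7, g8, g9, g10, g11⟩
    · omega
    · omega
    · omega
    · omega
    · have := (hM v g0 g1 g2).1
      omega
  · have t1 : TB A b H v ≤ TB A b (nh m L0 H0 L H) v := Mid_anti hnH v
    have t2 : TB A b H0 v ≤ TB A b H v := Mid_anti hHH v
    have t3 := hI.low v
    rcases K v with ⟨g0, g1, g2, g3, g4⟩ | ⟨g0, g1, g2, g3, g4, g5⟩ |
      ⟨g0, g1, g2, g3, g4, g5⟩ | ⟨g, g0, g1, g2, g3, g4, g5, g6⟩ |
      ⟨g0, g1, g2, g3, g4, g5, g6, g7, g8, g9, g10, g11⟩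
    · omega
    · omega
    · omega
    · omega
    · exact (hM v g0 g1 g2).2
  · exact hDis A b lam m L0 H0 L H hI hG K fun v h0 h1 h2 => (hM v h0 h1 h2).1

end Pool.Agent.Lib.MP_c29043_lc.SWC
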