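import Pool.Agent.Lib.MP_c29043_lc.SWC.Spec

/-!
# Covers of digraphs, weights separated in the strong components: a stage preserves the invariant of the states
-/

set_option autoImplicit false

open N68a2faeb N487b59b3 Pool.Agent.Lib.PolyTime

namespace Pool.Agent.Lib.MP_c29043_lc.SWC

open Pool.Agent.Lib.MP_c29043_lc

/-- if all nodes are fixed, the corners never change -/
private theorem Stp_stab (A : List ((ℕ × ℕ) × ℕ)) (b L0 H0 : ℕ → ℕ) (m : ℕ)
    (hw : ∀ v, H0 v = L0 v) (hM : MonF A b L0 H0 m) (N : ℕ) :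
    Stab A b m L0 H0 (it A b L0 H0 m N).1 (it A b L0 H0 m N).2 := by
  have e1 : ∀ v, (it A b L0 H0 m N).1 v = L0 v := by
    intro v
    obtain ⟨h1, h2, h3, -, -⟩ := hM N v
    have h4 := hw v
    omega
  have e2 : ∀ v, (it A b L0 H0 m N).2 v = L0 v := by
    intro v
    obtain ⟨h1, h2, h3, -, -⟩ := hM N v
    have h4 := hw v
    omega
  refine ⟨fun v => (hM N v).2.1, fun v => ?_, fun v => ?_⟩
  · rw [e1 v]
    unfold dn
    rw [if_pos (hw v).le]
  · rw [e2 v]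
    unfold up
    rw [if_pos (hw v).le]

theorem tStp (h1 : S_Mon) (h2 : S_Val) (h3 : S_Fix) (h4 : S_Stg) (h5 : S_Lst) (h6 : SW.S_Nxt) :
    S_Stp := by
  intro V A bl s hE hS hst
  obtain ⟨hinv, hsupp⟩ := hst
  have hN := h6 A s.1 hE hS hinv.wt
  have hgap : SW.Gap A s.1 (SW.nxt A s.1) ∨ s.1 = 0 ∧ SW.nxt A s.1 = 0 := by
    rcases Nat.eq_zero_or_pos s.1 with h | h
    · exact Or.inr ⟨h, hN.2.1 h⟩
    · exact Or.inl (hN.1 h)
  have htwo : 2 * SW.nxt A s.1 ≤ s.1 := by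
    rcases hgap with h | ⟨h, h'⟩
    · exact h.two
    · omega
  have hM : MonF A (vec bl) (vec s.2.1) (vec s.2.2) (SW.nxt A s.1) :=
    h1 A (vec bl) s.1 (SW.nxt A s.1) _ _ hinv htwo
  have hstab : Stab A (vec bl) (SW.nxt A s.1) (vec s.2.1) (vec s.2.2)
      (it A (vec bl) (vec s.2.1) (vec s.2.2) (SW.nxt A s.1) ((V2 V).length * (V2 V).length)).1
      (it A (vec bl) (vec s.2.1) (vec s.2.2) (SW.nxt A s.1)
        ((V2 V).length * (V2 V).length)).2 := by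
    rcases hgap with h | ⟨h, -⟩
    · exact h3 A (vec bl) s.1 (SW.nxt A s.1) _ _ V hinv.width hsupp hM
        (h2 A (vec bl) s.1 (SW.nxt A s.1) _ _ V hinv h hsupp hM)
    · refine Stp_stab A (vec bl) _ _ _ (fun v => ?_) hM _
      have hw := hinv.width v
      rw [h] at hw
      rcases hw with hw | hw
      · exact hw
      · simpa using hw
  have hL := h5 V A bl s.2.1 s.2.2 (SW.nxt A s.1) hsupp
  rw [← hL.1, ← hL.2] at hstab
  have hz : ∀ v, v ∉ V → vec (rnds V A bl s.2.1 s.2.2 (SW.nxt A s.1)).1 v = 0 ∧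
      vec (rnds V A bl s.2.1 s.2.2 (SW.nxt A s.1)).2 v = 0 := by
    intro v hv
    obtain ⟨g1, g2⟩ := hsupp v hv
    have g3 : vec (rnds V A bl s.2.1 s.2.2 (SW.nxt A s.1)).2 v = 0 := by
      rw [hstab.fh v]
      unfold up
      rw [g1, g2]
      simp
    have g4 := hstab.le v
    exact ⟨by omega, g3⟩
  have hn1 : vec (tab V (nl (SW.nxt A s.1) (vec s.2.1) (vec s.2.2)
      (vec (rnds V A bl s.2.1 s.2.2 (SW.nxt A s.1)).1)
      (vec (rnds V A bl s.2.1 s.2.2 (SW.nxt A s.1)).2))) =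
      nl (SW.nxt A s.1) (vec s.2.1) (vec s.2.2)
        (vec (rnds V A bl s.2.1 s.2.2 (SW.nxt A s.1)).1)
        (vec (rnds V A bl s.2.1 s.2.2 (SW.nxt A s.1)).2) := by
    apply vec_tab_eq
    intro v hv
    obtain ⟨g1, g2⟩ := hsupp v hv
    obtain ⟨g3, g4⟩ := hz v hv
    unfold nl
    rw [g1, g2, g3, g4]
    simp
  have hn2 : vec (tab V (nh (SW.nxt A s.1) (vec s.2.1) (vec s.2.2)
      (vec (rnds V A bl s.2.1 s.2.2 (SW.nxt A s.1)).1)
      (vec (rnds V A bl s.2.1 s.2.2 (SW.nxt A s.1)).2))) =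
      nh (SW.nxt A s.1) (vec s.2.1) (vec s.2.2)
        (vec (rnds V A bl s.2.1 s.2.2 (SW.nxt A s.1)).1)
        (vec (rnds V A bl s.2.1 s.2.2 (SW.nxt A s.1)).2) := by
    apply vec_tab_eq
    intro v hv
    obtain ⟨g1, g2⟩ := hsupp v hv
    obtain ⟨g3, g4⟩ := hz v hv
    unfold nh
    rw [g1, g2, g3, g4]
    simp
  refine ⟨?_, fun v hv => ⟨vec_tab_zero hv, vec_tab_zero hv⟩⟩
  have hfin := h4 A (vec bl) s.1 (SW.nxt A s.1) _ _ _ _ hinv hgap hstab
  rw [← hn1, ← hn2] at hfin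
  exact hfin

end Pool.Agent.Lib.MP_c29043_lc.SWC
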