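import Pool.Agent.Lib.MP_c29043_lc.SWC.Spec

/-!
# MP_c29043_lc, project SWC: few values

The corners of the box take only values from the list `zs` relative to the lower corner.
-/

set_option autoImplicit false

open N68a2faeb N487b59b3 Pool.Agent.Lib.PolyTime

namespace Pool.Agent.Lib.MP_c29043_lc.SWC

open Pool.Agent.Lib.MP_c29043_lc

private theorem Val_mem (V : List ℕ) (b L0 : ℕ → ℕ) (lam m z : ℕ) :
    z ∈ zs V b L0 lam m ↔ (z = 0 ∨ z = m ∨ z = lam - m ∨ z = lam) ∨
      (∃ i ∈ V, b i - L0 i = z) ∨ ∃ i ∈ V, lam - (b i - L0 i) = z := by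
  unfold zs
  simp only [List.mem_append, List.mem_cons, List.mem_map, List.not_mem_nil, or_false]

/-- the values in the middle zone -/
private theorem Val_core (A : List ((ℕ × ℕ) × ℕ)) (b : ℕ → ℕ) (lam m : ℕ) (L0 H0 : ℕ → ℕ)
    (V : List ℕ) (hI : Inv A b lam L0 H0) (hG : SW.Gap A lam m)
    (hV : ∀ v, v ∉ V → L0 v = 0 ∧ H0 v = 0) (x : ℕ → ℕ) (hx0 : ∀ u, L0 u ≤ x u)
    (hx1 : ∀ u, x u ≤ H0 u) (hx : ∀ u, H0 u = L0 u + lam → x u - L0 u ∈ zs V b L0 lam m)
    (v : ℕ) (hv : H0 v = L0 v + lam) (h1 : L0 v + m < TB A b x v)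
    (h2 : TB A b x v < L0 v + (lam - m)) : TB A b x v - L0 v ∈ zs V b L0 lam m := by
  have hlt := hG.lt
  have hvV : v ∈ V := by
    by_contra h
    obtain ⟨e1, e2⟩ := hV v h
    omega
  rw [Val_mem]
  rcases le_total (T A x v) (b v) with hb | hb
  · have e1 : TB A b x v = b v := by
      unfold TB
      exact max_eq_left hb
    rw [e1]
    exact Or.inr (Or.inl ⟨v, hvV, rfl⟩)
  · have e1 : TB A b x v = T A x v := by
      unfold TB
      exact max_eq_right hb
    rw [e1] at h1 h2 ⊢
    obtain ⟨e, he, hev, h3⟩ := T_attained (A := A) (x := x) (v := v) (by omega)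
    have h4 := hx0 e.1.1
    have h5 := hx1 e.1.1
    rcases hI.dis e he with h6 | ⟨c, hc, hcl, h6⟩
    · rw [hev] at h6
      omega
    · rw [hev] at h6
      have hc1 : c = lam := by
        by_contra hne
        have := hG.max c hc (by omega)
        omega
      have hw : H0 e.1.1 = L0 e.1.1 + lam := by
        rcases hI.width e.1.1 with h7 | h7
        · omega
        · exact h7
      have h8 := hx e.1.1 hw
      rw [Val_mem] at h8
      rcases h8 with h8 | ⟨i, hi, h8⟩ | ⟨i, hi, h8⟩
      · exfalso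
        omega
      · exact Or.inr (Or.inr ⟨i, hi, by omega⟩)
      · exact Or.inr (Or.inl ⟨i, hi, by omega⟩)

theorem tVal : S_Val := by
  intro A b lam m L0 H0 V hI hG hV hM k
  have hlt := hG.lt
  induction k with
  | zero =>
    intro v hv
    have e1 : (it A b L0 H0 m 0).1 v = L0 v := rfl
    have e2 : (it A b L0 H0 m 0).2 v = H0 v := rfl
    rw [e1, e2, Val_mem, Val_mem]
    exact ⟨Or.inl (by omega), Or.inl (by omega)⟩
  | succ k ih =>
    intro v hv
    have e1 : (it A b L0 H0 m (k + 1)).1 v =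
        dn (L0 v) (H0 v) m (TB A b (it A b L0 H0 m k).2 v) := rfl
    have e2 : (it A b L0 H0 m (k + 1)).2 v =
        up (L0 v) (H0 v) m (TB A b (it A b L0 H0 m k).1 v) := rfl
    have c1 := Val_core A b lam m L0 H0 V hI hG hV (it A b L0 H0 m k).1 (fun u => (hM k u).1)
      (fun u => le_trans (hM k u).2.1 (hM k u).2.2.1) (fun u hu => (ih u hu).1) v hv
    have c2 := Val_core A b lam m L0 H0 V hI hG hV (it A b L0 H0 m k).2
      (fun u => le_trans (hM k u).1 (hM k u).2.1) (fun u => (hM k u).2.2.1)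
      (fun u hu => (ih u hu).2) v hv
    rw [e1, e2]
    constructor
    · unfold dn
      rw [if_neg (by omega)]
      by_cases h1 : H0 v - m ≤ TB A b (it A b L0 H0 m k).2 v
      · rw [if_pos h1, Val_mem]
        exact Or.inl (by omega)
      · rw [if_neg h1]
        by_cases h2 : L0 v + m < TB A b (it A b L0 H0 m k).2 v
        · rw [if_pos h2]
          exact c2 h2 (by omega)
        · rw [if_neg h2, Val_mem]
          exact Or.inl (by omega)
    · unfold up
      rw [if_neg (by omega)]
      by_cases h1 : TB A b (it A b L0 H0 m k).1 v ≤ L0 v + m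
      · rw [if_pos h1, Val_mem, min_eq_right (by omega)]
        exact Or.inl (by omega)
      · rw [if_neg h1]
        by_cases h2 : TB A b (it A b L0 H0 m k).1 v < H0 v - m
        · rw [if_pos h2]
          exact c1 (by omega) (by omega)
        · rw [if_neg h2, Val_mem]
          exact Or.inl (by omega)

end Pool.Agent.Lib.MP_c29043_lc.SWC
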