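import Pool.Agent.Lib.MP_c29043_lc.SWC.Rd
import Pool.Agent.Lib.MP_c29043_lc.SWC.Mon
import Pool.Agent.Lib.MP_c29043_lc.SWC.Val
import Pool.Agent.Lib.MP_c29043_lc.SWC.Fix
import Pool.Agent.Lib.MP_c29043_lc.SWC.Kin
import Pool.Agent.Lib.MP_c29043_lc.SWC.Dis
import Pool.Agent.Lib.MP_c29043_lc.SWC.StgX
import Pool.Agent.Lib.MP_c29043_lc.SWC.Lst
import Pool.Agent.Lib.MP_c29043_lc.SWC.Ini
import Pool.Agent.Lib.MP_c29043_lc.SWC.Stp
import Pool.Agent.Lib.MP_c29043_lc.SWC.Cor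
import Pool.Agent.Lib.MP_c29043_lc.SWC.Cmp
import Pool.Agent.Lib.MP_c29043_lc.SWC.Lop
import Pool.Agent.Lib.MP_c29043_lc.SWC.PtR
import Pool.Agent.Lib.MP_c29043_lc.SWC.PtS
import Pool.Agent.Lib.MP_c29043_lc.SWC.PtM
import Pool.Agent.Lib.MP_c29043_lc.SW.Nxt
import Pool.Agent.Lib.MP_c29043_lc.CR.Pre
import Pool.Agent.Lib.MP_c29043_lc.CR.Src
import Pool.Agent.Lib.MP_c29043_lc.CR.PtB

/-!
# Weights separated inside the strong components: the main theorem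
-/

set_option autoImplicit false

open N68a2faeb N487b59b3 Pool.Agent.Lib.PolyTime

namespace Pool.Agent.Lib.MP_c29043_lc.SWC

theorem tMain : S_Main := by
  have hStg : S_Stg := tStgX (tKin tRd) tDis
  have hStp : S_Stp := tStp (tMon tRd) tVal tFix hStg tLst SW.tNxt
  have hCor : S_Cor := tCor tIni hStp SW.tNxt
  exact ⟨alg, tPtM CR.tPtB (tPtS tPtR), tLop (CR.tSrc CR.tPre) (tCmp hCor)⟩

end Pool.Agent.Lib.MP_c29043_lc.SWC
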