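import Pool.Agent.Lib.MP_c29043_lc.SWC.Spec

/-!
# MP_c29043_lc, project SWC: the claim for middle nodes
-/

set_option autoImplicit false

open N68a2faeb N487b59b3 Pool.Agent.Lib.PolyTime

namespace Pool.Agent.Lib.MP_c29043_lc.SWC

open Pool.Agent.Lib.MP_c29043_lc

private theorem Mid_T_le_TB (A : List ((ℕ × ℕ) × ℕ)) (b x : ℕ → ℕ) (v : ℕ) :
    T A x v ≤ TB A b x v := le_max_right _ _

private theorem Mid_b_le_TB (A : List ((ℕ × ℕ) × ℕ)) (b x : ℕ → ℕ) (v : ℕ) :
    b v ≤ TB A b x v := le_max_left _ _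

/-- The new lower corner is above the old one, the new upper corner below the stable one. -/
private theorem Mid_ge {A : List ((ℕ × ℕ) × ℕ)} {b : ℕ → ℕ} {lam m : ℕ} {L0 H0 L H : ℕ → ℕ}
    {u : ℕ} (h : Kind A b lam m L0 H0 L H u) :
    L0 u ≤ nl m L0 H0 L H u ∧ nh m L0 H0 L H u ≤ H u := by
  cases h with
  | fix h0 h1 h2 h3 h4 => exact ⟨by omega, by omega⟩
  | low h0 h1 h2 h3 h4 h5 => exact ⟨by omega, by omega⟩
  | high h0 h1 h2 h3 h4 h5 => exact ⟨by omega, by omega⟩
  | both h h0 h1 h2 h3 h4 h5 h6 => exact ⟨by omega, by omega⟩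
  | mid h0 h1 h2 h3 h4 h5 h6 h7 h8 h9 h10 h11 => exact ⟨by omega, by omega⟩

/-- The tails of the heavy arcs are high or middle nodes. -/
private theorem Mid_tail {A : List ((ℕ × ℕ) × ℕ)} {b : ℕ → ℕ} {lam m : ℕ} {L0 H0 L H : ℕ → ℕ}
    (hG : SW.Gap A lam m) {v : ℕ} (ha : TB A b H v < L0 v + (lam - m)) {e : (ℕ × ℕ) × ℕ}
    (he : e ∈ A) (hev : e.1.2 = v) (hc : e.2 = L0 e.1.1 + L0 v + lam)
    (h : Kind A b lam m L0 H0 L H e.1.1) :
    (L e.1.1 = L0 e.1.1 + (lam - m) ∧ nl m L0 H0 L H e.1.1 = L0 e.1.1 + (lam - m)) ∨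
    (nl m L0 H0 L H e.1.1 = max (L e.1.1) (min (L0 e.1.1 + lam / 2) (H e.1.1)) ∧
      nh m L0 H0 L H e.1.1 = nl m L0 H0 L H e.1.1) := by
  have h9 := le_T (x := H) he
  rw [hev] at h9
  have h10 := Mid_T_le_TB A b H v
  have hlt := hG.lt
  cases h with
  | fix h0 h1 h2 h3 h4 => omega
  | low h0 h1 h2 h3 h4 h5 => omega
  | high h0 h1 h2 h3 h4 h5 => exact Or.inl ⟨h1, h3⟩
  | both h h0 h1 h2 h3 h4 h5 h6 => omega
  | mid h0 h1 h2 h3 h4 h5 h6 h7 h8 h9 h10 h11 => exact Or.inr ⟨h3, h4⟩

private theorem Mid_main (A : List ((ℕ × ℕ) × ℕ)) (b : ℕ → ℕ) (lam m : ℕ)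
    (L0 H0 L H : ℕ → ℕ) (hI : Inv A b lam L0 H0) (hG : SW.Gap A lam m)
    (hK : ∀ v, Kind A b lam m L0 H0 L H v) (hL : ∀ v, L0 v ≤ L v) (v : ℕ)
    (h0v : H0 v = L0 v + lam) (ha : TB A b H v < L0 v + (lam - m))
    (hb : L0 v + m < TB A b L v) :
    TB A b (nl m L0 H0 L H) v ≤ nl m L0 H0 L H v ∧
      nl m L0 H0 L H v ≤ TB A b (nh m L0 H0 L H) v := by
  have hlt := hG.lt
  have htwo := hG.two
  have heven := hG.even
  have hvm : nl m L0 H0 L H v = max (TB A b H v) (min (L0 v + lam / 2) (TB A b L v)) ∧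
      L0 v + m ≤ nl m L0 H0 L H v := by
    cases hK v with
    | fix h0 h1 h2 h3 h4 => omega
    | low h0 h1 h2 h3 h4 h5 => omega
    | high h0 h1 h2 h3 h4 h5 => omega
    | both h h0 h1 h2 h3 h4 h5 h6 => omega
    | mid h0 h1 h2 h3 h4 h5 h6 h7 h8 h9 h10 h11 => exact ⟨h5, h6⟩
  obtain ⟨h5, h6⟩ := hvm
  refine ⟨?_, ?_⟩
  · refine max_le ?_ ?_
    · have h7 := Mid_b_le_TB A b H v
      omega
    · apply T_le
      intro e he hev
      have hge := (Mid_ge (hK e.1.1)).1
      rcases hI.dis e he with hd | ⟨c, hw, hcl, hd⟩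
      · rw [hev] at hd
        omega
      · rw [hev] at hd
        rcases Nat.lt_or_ge c lam with hc | hc
        · have hcm := hG.max c hw hc
          omega
        · have hc' : c = lam := le_antisymm hcl hc
          subst hc'
          have hLT := le_T (x := L) he
          have hHT := le_T (x := H) he
          rw [hev] at hLT hHT
          have hLB := Mid_T_le_TB A b L v
          have hHB := Mid_T_le_TB A b H v
          rcases Mid_tail hG ha he hev hd (hK e.1.1) with ⟨_, h2⟩ | ⟨h1, _⟩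
          · omega
          · rcases le_total (H e.1.1) (L0 e.1.1 + c / 2) with h8 | h8
            · rw [min_eq_right h8] at h1
              omega
            · rw [min_eq_left h8] at h1
              omega
  · have hHB : TB A b H v ≤ TB A b (nh m L0 H0 L H) v :=
      max_le_max le_rfl (T_anti (fun u => (Mid_ge (hK u)).2) v)
    have hLB : min (L0 v + lam / 2) (TB A b L v) ≤ TB A b (nh m L0 H0 L H) v := by
      rcases le_or_gt (T A L v) (b v) with h7 | h7
      · have h8 : TB A b L v = b v := max_eq_left h7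
        have h9 := Mid_b_le_TB A b (nh m L0 H0 L H) v
        omega
      · have h8 : TB A b L v = T A L v := max_eq_right h7.le
        rw [h8] at hb ⊢
        have hpos : 0 < T A L v := by omega
        obtain ⟨e, he, hev, h4⟩ := T_attained hpos
        have hge := hL e.1.1
        rcases hI.dis e he with hd | ⟨c, hw, hcl, hd⟩
        · rw [hev] at hd
          omega
        · rw [hev] at hd
          rcases Nat.lt_or_ge c lam with hc | hc
          · have hcm := hG.max c hw hc
            omega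
          · have hc' : c = lam := le_antisymm hcl hc
            subst hc'
            rcases Mid_tail hG ha he hev hd (hK e.1.1) with ⟨h1, _⟩ | ⟨h1, h2⟩
            · omega
            · have h9 := le_T (x := nh m L0 H0 L H) he
              rw [hev] at h9
              have h10 := Mid_T_le_TB A b (nh m L0 H0 L H) v
              rcases le_total (H e.1.1) (L0 e.1.1 + c / 2) with h11 | h11
              · rw [min_eq_right h11] at h1
                omega
              · rw [min_eq_left h11] at h1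
                omega
    omega

theorem tMid : S_Mid := by
  intro A b lam m L0 H0 L H hI hG hK hL v h0v ha hb
  exact Mid_main A b lam m L0 H0 L H hI hG hK hL v h0v ha hb

end Pool.Agent.Lib.MP_c29043_lc.SWC
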