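import Pool.Agent.Lib.MP_c29043_lc.SWC.Spec

set_option autoImplicit false

open N68a2faeb N487b59b3 Pool.Agent.Lib.PolyTime

namespace Pool.Agent.Lib.MP_c29043_lc.SWC

open Pool.Agent.Lib.MP_c29043_lc

theorem tRd : S_Rd := by
  intro l h lam m t t' hh hm h1 h2 h3
  unfold dn up
  refine ⟨?_, ?_, ?_, ?_, ?_, ?_⟩ <;> split_ifs <;> omega

end Pool.Agent.Lib.MP_c29043_lc.SWC
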