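import Pool.Agent.Lib.MP_c29043_lc.SW.Spec
import Pool.Agent.Lib.MP_c29043_lc.CR.Spec

/-!
# MP_c29043_lc, project SWC (architect helper12): weights separated only inside the strong components

Paper proof: note 5555. `TB A b x v = max (b v) (T A x v)`, `b` are lower bounds for the nodes. The box iteration of SW with exact
values in the middle zone and the clamp instead of the midpoint. Each module `X.lean` of this folder has
`theorem tX : S_X` with the statements after Uses as explicit hypotheses `(h1 : S_A) (h2 : S_B) ...` in this order; modules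
are independent. Models: the modules of the same kind in SW/. Tools: Fix.lean (`le_T`, `le_T_add`, `T_le`, `T_attained`,
`T_anti`, `T_le_bound`), Alg.lean (`vec_tab`, `vec_tab_zero`, `sz_tab_mono`), Solve.lean (`verts`, `wts`, `mem_verts`).
-/

set_option autoImplicit false

open N68a2faeb N487b59b3 Pool.Agent.Lib.PolyTime

namespace Pool.Agent.Lib.MP_c29043_lc.SWC

open Pool.Agent.Lib.MP_c29043_lc

/-- the operator with lower bounds -/
def TB (A : List ((ℕ × ℕ) × ℕ)) (b x : ℕ → ℕ) (v : ℕ) : ℕ := max (b v) (T A x v)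

/-- The invariant of the stage `lam`: lower corner `l`, upper corner `h`. -/
structure Inv (A : List ((ℕ × ℕ) × ℕ)) (b : ℕ → ℕ) (lam : ℕ) (l h : ℕ → ℕ) : Prop where
  wt : SW.IsWt A lam
  width : ∀ v, h v = l v ∨ h v = l v + lam
  up : ∀ v, TB A b l v ≤ h v
  low : ∀ v, l v ≤ TB A b h v
  dis : ∀ e ∈ A, e.2 ≤ l e.1.1 + l e.1.2 ∨
    ∃ c, SW.IsWt A c ∧ c ≤ lam ∧ e.2 = l e.1.1 + l e.1.2 + c

/-- rounding down; the values between `l + m` and `h - m` are not changed -/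
def dn (l h m t : ℕ) : ℕ := if h ≤ l then l else if h - m ≤ t then h - m else if l + m < t then t else l

/-- rounding up -/
def up (l h m t : ℕ) : ℕ :=
  if h ≤ l then l else if t ≤ l + m then min h (l + m) else if t < h - m then t else h

/-- the corners after `k` rounds -/
def it (A : List ((ℕ × ℕ) × ℕ)) (b L0 H0 : ℕ → ℕ) (m : ℕ) : ℕ → (ℕ → ℕ) × (ℕ → ℕ)
  | 0 => (L0, H0)
  | k + 1 => (fun v => dn (L0 v) (H0 v) m (TB A b (it A b L0 H0 m k).2 v),
      fun v => up (L0 v) (H0 v) m (TB A b (it A b L0 H0 m k).1 v))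

/-- `L, H` do not change in a round. -/
structure Stab (A : List ((ℕ × ℕ) × ℕ)) (b : ℕ → ℕ) (m : ℕ) (L0 H0 L H : ℕ → ℕ) : Prop where
  le : ∀ v, L v ≤ H v
  fl : ∀ v, L v = dn (L0 v) (H0 v) m (TB A b H v)
  fh : ∀ v, H v = up (L0 v) (H0 v) m (TB A b L v)

/-- the lower corner at the end of a stage -/
def nl (m : ℕ) (L0 H0 L H : ℕ → ℕ) (v : ℕ) : ℕ :=
  if H v = L0 v + m ∨ L v = H0 v - m then L v else max (L v) (min ((L0 v + H0 v) / 2) (H v))

/-- the upper corner at the end of a stage -/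
def nh (m : ℕ) (L0 H0 L H : ℕ → ℕ) (v : ℕ) : ℕ :=
  if H v = L0 v + m ∨ L v = H0 v - m then H v else max (L v) (min ((L0 v + H0 v) / 2) (H v))

/-- The five kinds of vertices: fixed, low, high, both, middle. -/
inductive Kind (A : List ((ℕ × ℕ) × ℕ)) (b : ℕ → ℕ) (lam m : ℕ) (L0 H0 L H : ℕ → ℕ) (v : ℕ) : Prop
  | fix (h0 : H0 v = L0 v) (h1 : L v = L0 v) (h2 : H v = L0 v)
      (h3 : nl m L0 H0 L H v = L0 v) (h4 : nh m L0 H0 L H v = L0 v)
  | low (h0 : H0 v = L0 v + lam) (h1 : L v = L0 v) (h2 : H v = L0 v + m)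
      (h3 : nl m L0 H0 L H v = L0 v) (h4 : nh m L0 H0 L H v = L0 v + m)
      (h5 : TB A b L v ≤ L0 v + m)
  | high (h0 : H0 v = L0 v + lam) (h1 : L v = L0 v + (lam - m)) (h2 : H v = L0 v + lam)
      (h3 : nl m L0 H0 L H v = L0 v + (lam - m)) (h4 : nh m L0 H0 L H v = L0 v + lam)
      (h5 : L0 v + (lam - m) ≤ TB A b H v)
  | both (h : lam = 2 * m) (h0 : H0 v = L0 v + lam) (h1 : L v = L0 v + m) (h2 : H v = L0 v + m)
      (h3 : nl m L0 H0 L H v = L0 v + m) (h4 : nh m L0 H0 L H v = L0 v + m)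
      (h5 : TB A b H v = L0 v + m) (h6 : TB A b L v = L0 v + m)
  | mid (h0 : H0 v = L0 v + lam) (h1 : TB A b H v < L0 v + (lam - m)) (h2 : L0 v + m < TB A b L v)
      (h3 : nl m L0 H0 L H v = max (L v) (min (L0 v + lam / 2) (H v)))
      (h4 : nh m L0 H0 L H v = nl m L0 H0 L H v)
      (h5 : nl m L0 H0 L H v = max (TB A b H v) (min (L0 v + lam / 2) (TB A b L v)))
      (h6 : L0 v + m ≤ nl m L0 H0 L H v) (h7 : nl m L0 H0 L H v ≤ L0 v + (lam - m))
      (h8 : L v ≤ nl m L0 H0 L H v) (h9 : nl m L0 H0 L H v ≤ H v)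
      (h10 : L v < L0 v + (lam - m)) (h11 : L0 v + m < H v)

/-! ### The algorithm on lists; `V` is a list of nodes which contains the ends of all arcs -/

/-- a list of length `2 * V.length + 4` -/
def V2 (V : List ℕ) : List ℕ := V ++ (V ++ [0, 0, 0, 0])

/-- one round -/
def rnd (V : List ℕ) (A : List ((ℕ × ℕ) × ℕ)) (bl l0 h0 : List (ℕ × ℕ)) (m : ℕ)
    (p : List (ℕ × ℕ) × List (ℕ × ℕ)) : List (ℕ × ℕ) × List (ℕ × ℕ) :=
  (tab V (fun v => dn (vec l0 v) (vec h0 v) m (TB A (vec bl) (vec p.2) v)),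
    tab V (fun v => up (vec l0 v) (vec h0 v) m (TB A (vec bl) (vec p.1) v)))

/-- all rounds of a stage -/
def rnds (V : List ℕ) (A : List ((ℕ × ℕ) × ℕ)) (bl l0 h0 : List (ℕ × ℕ)) (m : ℕ) :
    List (ℕ × ℕ) × List (ℕ × ℕ) :=
  (V2 V).foldl (fun p _ => (V2 V).foldl (fun p _ => rnd V A bl l0 h0 m p) p) (l0, h0)

/-- one stage; the state is `(lam, lower corner, upper corner)` -/
def stg (V : List ℕ) (A : List ((ℕ × ℕ) × ℕ)) (bl : List (ℕ × ℕ))
    (s : ℕ × (List (ℕ × ℕ) × List (ℕ × ℕ))) : ℕ × (List (ℕ × ℕ) × List (ℕ × ℕ)) :=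
  (SW.nxt A s.1,
    (tab V (nl (SW.nxt A s.1) (vec s.2.1) (vec s.2.2)
        (vec (rnds V A bl s.2.1 s.2.2 (SW.nxt A s.1)).1)
        (vec (rnds V A bl s.2.1 s.2.2 (SW.nxt A s.1)).2)),
      tab V (nh (SW.nxt A s.1) (vec s.2.1) (vec s.2.2)
        (vec (rnds V A bl s.2.1 s.2.2 (SW.nxt A s.1)).1)
        (vec (rnds V A bl s.2.1 s.2.2 (SW.nxt A s.1)).2))))

/-- the initial state -/
def ini (V : List ℕ) (A : List ((ℕ × ℕ) × ℕ)) : ℕ × (List (ℕ × ℕ) × List (ℕ × ℕ)) :=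
  (wts A, (tab V (fun _ => 0), tab V (fun _ => wts A)))

/-- the solution for small lower bounds -/
def sol (V : List ℕ) (A : List ((ℕ × ℕ) × ℕ)) (bl : List (ℕ × ℕ)) : List (ℕ × ℕ) :=
  (A.foldl (fun s _ => stg V A bl s) (ini V A)).2.1

/-- the solution for arbitrary lower bounds -/
def comp (V : List ℕ) (A : List ((ℕ × ℕ) × ℕ)) (bl : List (ℕ × ℕ)) : List (ℕ × ℕ) :=
  tab V fun v => max (vec bl v) (vec (sol V A (tab V fun v => min (vec bl v) (wts A))) v)

/-- the invariant for states -/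
structure St (V : List ℕ) (A : List ((ℕ × ℕ) × ℕ)) (bl : List (ℕ × ℕ))
    (s : ℕ × (List (ℕ × ℕ) × List (ℕ × ℕ))) : Prop where
  inv : Inv A (vec bl) s.1 (vec s.2.1) (vec s.2.2)
  supp : ∀ v, v ∉ V → vec s.2.1 v = 0 ∧ vec s.2.2 v = 0

/-! ### The loop over the strong components -/

/-- the arcs inside `X` -/
def inn (A : List ((ℕ × ℕ) × ℕ)) (X : List ℕ) : List ((ℕ × ℕ) × ℕ) :=
  A.filter fun e => decide (e.1.1 ∈ X) && decide (e.1.2 ∈ X)

/-- one step: a source component `X` of the remaining nodes `s.1` -/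
def stp (A : List ((ℕ × ℕ) × ℕ)) (s : List ℕ × List (ℕ × ℕ)) : List ℕ × List (ℕ × ℕ) :=
  if s.1 = [] then s else
    (s.1.filter fun u => decide (u ∉ CR.src A s.1),
      tab (verts A) fun v => min (wts A) (if v ∈ CR.src A s.1 then
        vec (comp (CR.src A s.1) (inn A (CR.src A s.1))
          (tab (CR.src A s.1) fun u => T A (vec s.2) u)) v
        else vec s.2 v))

/-- the algorithm -/
def alg (A : List ((ℕ × ℕ) × ℕ)) : List (ℕ × ℕ) :=
  ((verts A).foldl (fun s _ => stp A s) (verts A, tab (verts A) fun _ => wts A)).2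

/-- there is a path from `u` to `v` -/
def Reach (A : List ((ℕ × ℕ) × ℕ)) (u v : ℕ) : Prop :=
  Relation.ReflTransGen (fun p q => ∃ w, ((p, q), w) ∈ A) u v

/-- Of two different weights of arcs in one strong component the larger one is at least twice the smaller one. -/
def SepC (A : List ((ℕ × ℕ) × ℕ)) : Prop := ∀ a ∈ A, ∀ b ∈ A, Reach A a.1.2 b.1.1 →
  Reach A b.1.2 a.1.1 → a.2 < b.2 → 2 * a.2 ≤ b.2

/-- the values which can occur as corners, relative to the lower corner of the box -/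
def zs (V : List ℕ) (b L0 : ℕ → ℕ) (lam m : ℕ) : List ℕ :=
  [0, m, lam - m, lam] ++ (V.map (fun i => b i - L0 i) ++ V.map (fun i => lam - (b i - L0 i)))

/-- the facts of Mon -/
def MonF (A : List ((ℕ × ℕ) × ℕ)) (b L0 H0 : ℕ → ℕ) (m : ℕ) : Prop :=
  ∀ k v, L0 v ≤ (it A b L0 H0 m k).1 v ∧ (it A b L0 H0 m k).1 v ≤ (it A b L0 H0 m k).2 v ∧
    (it A b L0 H0 m k).2 v ≤ H0 v ∧ (it A b L0 H0 m k).1 v ≤ (it A b L0 H0 m (k + 1)).1 v ∧
    (it A b L0 H0 m (k + 1)).2 v ≤ (it A b L0 H0 m k).2 v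

/-! ### Statements -/

/-- **Rd**. Uses nothing. Proof: unfold, split, omega. -/
def S_Rd : Prop := ∀ l h lam m t t' : ℕ, (h = l ∨ h = l + lam) → 2 * m ≤ lam → l ≤ t → t ≤ t' → t' ≤ h →
  l ≤ dn l h m t ∧ dn l h m t ≤ t ∧ t ≤ up l h m t ∧ up l h m t ≤ h ∧
    dn l h m t ≤ dn l h m t' ∧ up l h m t ≤ up l h m t'

/-- **Mon** (the rounds are monotone). Uses: S_Rd. Proof. `TB` is antitone (`T_anti`). For `x` between `L0` and `H0`:
`L0 ≤ TB H0 ≤ TB x ≤ TB L0 ≤ H0`. Induction on `k`: bounds from S_Rd; `L_(k+1) = dn (TB H_k) ≤ TB H_k ≤ TB L_k ≤ up (TB L_k) = H_(k+1)`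
(`L_k ≤ H_k`); `H_(k+1) ≤ H_k` gives `TB H_k ≤ TB H_(k+1)`, so `L_(k+1) ≤ L_(k+2)`, and the same for `H`; `k = 0`:
`L0 ≤ dn ..`, `up .. ≤ H0`. -/
def S_Mon : Prop := ∀ (A : List ((ℕ × ℕ) × ℕ)) (b : ℕ → ℕ) (lam m : ℕ) (L0 H0 : ℕ → ℕ),
  Inv A b lam L0 H0 → 2 * m ≤ lam → MonF A b L0 H0 m

/-- **Val** (few values). Uses nothing. Proof. Induction on `k`; `v` with `H0 v = L0 v + lam`, so `v ∈ V` (`lam > m ≥ 0`).
`k = 0`: `0`, `lam`. Step, `L`: `dn` is `L0 v`, or `H0 v - m = L0 v + (lam - m)`, or `t = TB A b H_k v` with `L0 v + m < t < H0 v - m`.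
If `t = b v`: `b v - L0 v`. Otherwise `t = T A H_k v > 0` is attained (`T_attained`) by an arc `e` from `u` to `v`: `e.2 = t + H_k u`. By `dis`:
`e.2 ≤ L0 u + L0 v` is impossible (`H_k u ≥ L0 u`, `t > L0 v`), so `e.2 = L0 u + L0 v + c`, `t - L0 v = c - (H_k u - L0 u)`, so `c > m`,
`c = lam` (`Gap.max`). `H_k u = L0 u` is impossible (`t < H0 v - m`), so `H0 u = L0 u + lam` and `z = H_k u - L0 u` is in `zs` by induction and
`t - L0 v = lam - z` is strictly between `m` and `lam - m`, so `z` is none of `0, m, lam - m, lam`; `z = b i - L0 i` gives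
`lam - (b i - L0 i)`, and `z = lam - (b i - L0 i)` gives `b i - L0 i` (`z > 0`). `H`: the same with `up`. -/
def S_Val : Prop := ∀ (A : List ((ℕ × ℕ) × ℕ)) (b : ℕ → ℕ) (lam m : ℕ) (L0 H0 : ℕ → ℕ) (V : List ℕ),
  Inv A b lam L0 H0 → SW.Gap A lam m → (∀ v, v ∉ V → L0 v = 0 ∧ H0 v = 0) → MonF A b L0 H0 m →
  ∀ k v, H0 v = L0 v + lam → (it A b L0 H0 m k).1 v - L0 v ∈ zs V b L0 lam m ∧
    (it A b L0 H0 m k).2 v - L0 v ∈ zs V b L0 lam m

/-- **Fix** (the rounds become stable). Uses nothing. Proof. If round `k` changes nothing (`it (k+1) = it k`) then no later round does.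
Otherwise for every `k < N`, `N = (V2 V).length ^ 2 = (2 n + 4)^2`, some `v` changes; `v ∈ V` and `H0 v = L0 v + lam` (for the others `L0 ≤ L ≤ H ≤ H0`
are equal). Potential `Φ k = ∑_{v ∈ V.toFinset} (#{z ∈ Z | z < L_k v - L0 v} + #{z ∈ Z | H_k v - L0 v < z})`, `Z = (zs ..).toFinset`, `|Z| ≤ 2 n + 4`.
Each term is weakly increasing in `k`, and a change of `L` (or `H`) at `v` increases it by at least one, as the old value is in `Z` (Val). So
`Φ N ≥ N`, but every term is at most ... the two counts are disjoint (`L ≤ H`) and miss `L_N v - L0 v`, so `Φ N ≤ n (2 n + 4) < N` (or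
crudely `Φ N ≤ n * 2 * (2 n + 4) < (2 n + 4)^2`). -/
def S_Fix : Prop := ∀ (A : List ((ℕ × ℕ) × ℕ)) (b : ℕ → ℕ) (lam m : ℕ) (L0 H0 : ℕ → ℕ) (V : List ℕ),
  (∀ v, H0 v = L0 v ∨ H0 v = L0 v + lam) → (∀ v, v ∉ V → L0 v = 0 ∧ H0 v = 0) → MonF A b L0 H0 m →
  (∀ k v, H0 v = L0 v + lam → (it A b L0 H0 m k).1 v - L0 v ∈ zs V b L0 lam m ∧
    (it A b L0 H0 m k).2 v - L0 v ∈ zs V b L0 lam m) →
  Stab A b m L0 H0 (it A b L0 H0 m ((V2 V).length * (V2 V).length)).1
    (it A b L0 H0 m ((V2 V).length * (V2 V).length)).2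

/-- **Kin** (the kinds). Uses: S_Rd. Proof. `L0 ≤ L ≤ H ≤ H0` (S_Rd; `TB` of a point of the box is in the box), `A' = TB H v ≤ B' = TB L v`, both
between `L0 v` and `H0 v`. `H0 v = L0 v`: fix. Otherwise `H0 v = L0 v + lam`, unfold `dn`, `up`, cases: `B' ≤ L0 + m` and `L0 + (lam - m) ≤ A'`: both;
only the first: low; only the second: high; none: mid (`min mid H = min mid B'` since `H = B'` or `B' ≥ H0 - m ≥ mid`; if `A' ≤ L0 + m`
then `L = L0`, `A' ≤ min mid B'`). `(L0 v + H0 v) / 2 = L0 v + lam / 2`. All by `omega` after `split_ifs`. -/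
def S_Kin : Prop := ∀ (A : List ((ℕ × ℕ) × ℕ)) (b : ℕ → ℕ) (lam m : ℕ) (L0 H0 L H : ℕ → ℕ),
  Inv A b lam L0 H0 → m < lam → 2 * m ≤ lam → lam % 2 = 0 → Stab A b m L0 H0 L H →
  ∀ v, Kind A b lam m L0 H0 L H v

/-- **Mid** (the claim for middle nodes). Uses nothing. Proof. `x = nl v = max A' (min mid B')` (h5 of `mid`; the kind of `v` is `mid`: the other
kinds contradict the hypotheses), `A' = TB H v`, `B' = TB L v`. FIRST: `b v ≤ A' ≤ x`. An arc `e` from `u` to `v`: if `e.2 ≤ L0 u + L0 v`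
or `e.2 = L0 u + L0 v + c`, `c ≤ m`: `e.2 - nl u ≤ L0 v + m ≤ x` (`nl u ≥ L0 u` in all kinds). Otherwise `c = lam` (`Gap.max`). `u` fix, low or both:
`A' ≥ e.2 - H u ≥ L0 v + (lam - m)`, contradiction. `u` high: `e.2 - nl u = L0 v + m ≤ x`. `u` mid: `nl u = max (L u) (min (L0 u + lam/2) (H u))`, so
`e.2 - nl u = min (e.2 - L u) (max (L0 v + lam/2) (e.2 - H u))` with `e.2 - L u ≤ B'`, `e.2 - H u ≤ A'`: at most `x` (`lam` is even). SECOND:
`TB nh v ≥ TB H v = A'` (`nh ≤ H` in all kinds), and `TB nh v ≥ min mid B'`: if `B' = b v` clear; otherwise `B' = T A L v > L0 v + m` is attained by an arc with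
`e.2 = B' + L u`; as before `c = lam`, `u` is not fix, low, both; high gives `B' = L0 v + m`, contradiction; `u` mid: `e.2 - nh u = e.2 - nl u =
min B' (max (mid) ..) ≥ min B' mid`. -/
def S_Mid : Prop := ∀ (A : List ((ℕ × ℕ) × ℕ)) (b : ℕ → ℕ) (lam m : ℕ) (L0 H0 L H : ℕ → ℕ),
  Inv A b lam L0 H0 → SW.Gap A lam m → (∀ v, Kind A b lam m L0 H0 L H v) → (∀ v, L0 v ≤ L v) →
  ∀ v, H0 v = L0 v + lam → TB A b H v < L0 v + (lam - m) → L0 v + m < TB A b L v →
    TB A b (nl m L0 H0 L H) v ≤ nl m L0 H0 L H v ∧ nl m L0 H0 L H v ≤ TB A b (nh m L0 H0 L H) v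

/-- **Dis** (reduced weights). Uses nothing. Proof. `e` from `u` to `v`. If `v` is mid: `e.2 ≤ nl u + T A nl v ≤ nl u + nl v` (`le_T_add`, third hypothesis). If
`e.2 ≤ L0 u + L0 v`: left, as `nl ≥ L0`. `e.2 = L0 u + L0 v + c`, `c ≤ m`: if `nl u = L0 u` and `nl v = L0 v` keep `c`; otherwise one of them is
`≥ L0 + m` (`lam - m ≥ m`): left. `c = lam` (`Gap.max`): `v` fix: `TB L0 v ≤ H0 v = L0 v` (`Inv.up`) contradicts `e.2 - L0 u = L0 v + lam`. `v` low:
`e.2 - L u ≤ L0 v + m`, so `L u ≥ L0 u + (lam - m)`: `u` is high or both, `nl u = L0 u + (lam - m)`, rest `m` (a weight or 0: `Gap.wt`). `v` high: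
`nl v = L0 v + (lam - m)`: rest `m` if `nl u = L0 u`, otherwise `nl u ≥ L0 u + m`: left. `v` both: the same (`lam - m = m`). -/
def S_Dis : Prop := ∀ (A : List ((ℕ × ℕ) × ℕ)) (b : ℕ → ℕ) (lam m : ℕ) (L0 H0 L H : ℕ → ℕ),
  Inv A b lam L0 H0 → SW.Gap A lam m → (∀ v, Kind A b lam m L0 H0 L H v) →
  (∀ v, H0 v = L0 v + lam → TB A b H v < L0 v + (lam - m) → L0 v + m < TB A b L v →
    TB A b (nl m L0 H0 L H) v ≤ nl m L0 H0 L H v) →
  ∀ e ∈ A, e.2 ≤ nl m L0 H0 L H e.1.1 + nl m L0 H0 L H e.1.2 ∨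
    ∃ c, SW.IsWt A c ∧ c ≤ m ∧ e.2 = nl m L0 H0 L H e.1.1 + nl m L0 H0 L H e.1.2 + c

/-- **Stg** (the stage). Uses: S_Kin, S_Mid, S_Dis. Proof. `lam = 0`, `m = 0`: all nodes fixed, `nl = nh = L0 = H0` (`dn`, `up` are `L0 v`); `dis` with `c = 0`.
Otherwise: `L ≤ nl ≤ nh ≤ H` in all kinds. `width`: from the kinds. `up`: mid: `TB nl v ≤ nl v = nh v` (S_Mid); others:
`TB nl v ≤ TB L v` (`T_anti`) `≤ nh v` (fix: `TB L v = TB .. ≤ H0 v` as `L ≥ L0`; low: h5; high: `≤ TB L0 v ≤ H0 v`; both: h6). `low`: mid: S_Mid;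
others: `nl v = L v ≤ TB H v ≤ TB nh v` (`L v ≤ TB H v`: fix: `L0 v ≤ TB H0 v ≤ TB H v`; low the same; high: h5; both: h5). -/
def S_Stg : Prop := ∀ (A : List ((ℕ × ℕ) × ℕ)) (b : ℕ → ℕ) (lam m : ℕ) (L0 H0 L H : ℕ → ℕ),
  Inv A b lam L0 H0 → (SW.Gap A lam m ∨ lam = 0 ∧ m = 0) → Stab A b m L0 H0 L H →
  Inv A b m (nl m L0 H0 L H) (nh m L0 H0 L H)

/-- **Lst** (the rounds on lists). Uses nothing. Proof. The double fold is the `(V2 V).length * (V2 V).length`-fold iteration of `rnd`; `vec` of the state after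
`k` rounds is `it .. k` (`vec_tab`, `vec_tab_zero`; for `v ∉ V`: `dn 0 0 m t = 0`, `up 0 0 m t = 0`). -/
def S_Lst : Prop := ∀ (V : List ℕ) (A : List ((ℕ × ℕ) × ℕ)) (bl l0 h0 : List (ℕ × ℕ)) (m : ℕ),
  (∀ v, v ∉ V → vec l0 v = 0 ∧ vec h0 v = 0) →
  vec (rnds V A bl l0 h0 m).1 =
    (it A (vec bl) (vec l0) (vec h0) m ((V2 V).length * (V2 V).length)).1 ∧
  vec (rnds V A bl l0 h0 m).2 =
    (it A (vec bl) (vec l0) (vec h0) m ((V2 V).length * (V2 V).length)).2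

/-- **Ini** (the initial state). Uses nothing. Proof. As SW/Ini.lean; `v ∈ V`: `b v ≤ wts A`, `T ≤ wts A` (`T_le_bound`); `v ∉ V`: `b v = 0` and `T A x v = 0`
(no arc ends in `v`). -/
def S_Ini : Prop := ∀ (V : List ℕ) (A : List ((ℕ × ℕ) × ℕ)) (bl : List (ℕ × ℕ)),
  (∀ e ∈ A, e.1.1 ∈ V ∧ e.1.2 ∈ V) → (∀ v, vec bl v ≤ wts A) → (∀ v, v ∉ V → vec bl v = 0) →
  St V A bl (ini V A)

/-- **Stp** (a stage on states). Uses: S_Mon, S_Val, S_Fix, S_Stg, S_Lst, SW.S_Nxt. Proof. `m = SW.nxt A s.1`. By `SW.S_Nxt`: `s.1 > 0` gives `SW.Gap A s.1 m`,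
`s.1 = 0` gives `m = 0`. `s.1 > 0`: S_Mon, S_Val, S_Fix give `Stab`, then S_Stg with S_Lst; the lists are `tab V`, `nl v = nh v = 0` for
`v ∉ V` (`L0 v = H0 v = 0`, so `L v = H v = 0` by MonF). `s.1 = 0`: all nodes fixed, `Stab` directly (`dn = up = L0`, the iterates are constant), S_Stg. -/
def S_Stp : Prop := ∀ (V : List ℕ) (A : List ((ℕ × ℕ) × ℕ)) (bl : List (ℕ × ℕ))
  (s : ℕ × (List (ℕ × ℕ) × List (ℕ × ℕ))), (∀ e ∈ A, Even e.2) → SW.Sep A →
  St V A bl s → St V A bl (stg V A bl s)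

/-- **Cor** (small lower bounds). Uses: S_Ini, S_Stp, SW.S_Nxt. Proof. As SW/Cor.lean: after `A.length` stages `lam = 0`; then `l = h`, so
`TB l = l` by `up` and `low`. -/
def S_Cor : Prop := ∀ (V : List ℕ) (A : List ((ℕ × ℕ) × ℕ)) (bl : List (ℕ × ℕ)),
  (∀ e ∈ A, Even e.2) → SW.Sep A → (∀ e ∈ A, e.1.1 ∈ V ∧ e.1.2 ∈ V) → (∀ v, vec bl v ≤ wts A) →
  (∀ v, v ∉ V → vec bl v = 0) →
  ∀ v, vec (sol V A bl) v = TB A (vec bl) (vec (sol V A bl)) v

/-- **Cmp** (arbitrary lower bounds). Uses: S_Cor. Proof. `bl' = tab V (min (bl) (wts A))`, `y = vec (sol V A bl')`, `y = TB A bl' y`,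
`x v = max (b v) (y v)` for `v ∈ V`. For an arc `e` from `u`: `e.2 - x u = e.2 - y u`: if `b u ≤ wts A` then `y u ≥ b u`, `x u = y u`; otherwise both `x u` and
`y u` are `≥ wts A ≥ e.2`. So `T A x v = T A y v` (compare both ways with `T_le`, `le_T`), `x v = max (b v) (max (min (b v) (wts A)) (T A y v))`. -/
def S_Cmp : Prop := ∀ (V : List ℕ) (A : List ((ℕ × ℕ) × ℕ)) (bl : List (ℕ × ℕ)),
  (∀ e ∈ A, Even e.2) → SW.Sep A → (∀ e ∈ A, e.1.1 ∈ V ∧ e.1.2 ∈ V) →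
  ∀ v ∈ V, vec (comp V A bl) v = TB A (vec bl) (vec (comp V A bl)) v

/-- **Lop** (the loop). Uses: CR.S_Src, S_Cmp. Proof. As CR/Lop.lean and SW/Cor.lean. Invariant for `s = (R, x)`: `R ⊆ verts A`; `vec x v = wts A` for `v ∈ R`;
`vec x v = T A (vec x) v` for all `v ∉ R` (also outside of `verts A`: both are 0); no arc goes from a node of `R` to a node outside of `R`. Step for `X = src A R`
(CR.S_Src: `X ⊆ R`, nonempty, Strong, closed backwards in `R`): `SW.Sep (inn A X)` by `SepC` (a path inside `X` is a path), the arcs of `inn A X` have both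
ends in `X`, so S_Cmp gives `c v = max (T A x v) (T (inn A X) c v)` for `v ∈ X`. The new `x'` is `c` on `X` (`c v ≤ wts A`, so the `min` changes nothing), `x` elsewhere. `T A x' v` for
`v ∈ X`: arcs from `u ∈ X` are in `inn A X` and give the second part; arcs from `u ∉ R` have `x' u = x u`; in `T A x v` the arcs from `u ∈ R` give
`e.2 - wts A = 0`; arcs from `R \ X` to `X` do not exist. So `x' v = T A x' v`. For `v ∉ R`: the tails of the arcs into `v` are not in `R`, nothing changes. No arc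
from `R \ X` to `X` or to a node outside `R`. The length of `R` decreases, so at the end `R = []` and `x = T A x`: `IsCover` (`le_T_add`, `T_attained`). -/
def S_Lop : Prop := ∀ A : List ((ℕ × ℕ) × ℕ), (∀ e ∈ A, Even e.2) → SepC A → IsCover A (vec (alg A))

/-- **PtR** (rounds in polynomial time). Uses nothing. Proof. As SW/PtA.lean: `pt_foldl` twice; every intermediate state is `(l0, h0)` or a pair
`(tab V f, tab V g)` with `f v, g v ≤ vec l0 v + vec h0 v` (`dn l h m t ≤ l + h`, `up l h m t ≤ l + h`). The inner fold as a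
function of the parameters and the state: its start is the state `p` of the outer fold, so bound the size by `sz p` plus
the same bound. -/
def S_PtR : Prop := IsPolyTime
  fun p : (List ℕ × List ((ℕ × ℕ) × ℕ)) × ((List (ℕ × ℕ) × (List (ℕ × ℕ) × List (ℕ × ℕ))) × ℕ) =>
    rnds p.1.1 p.1.2 p.2.1.1 p.2.1.2.1 p.2.1.2.2 p.2.2

/-- **PtS** (the solution in polynomial time). Uses: S_PtR. Proof. As SW/PtB.lean: all states are `(lam, tab V f, tab V g)` with `lam, f, g ≤ wts A`. -/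
def S_PtS : Prop := IsPolyTime
  fun p : (List ℕ × List ((ℕ × ℕ) × ℕ)) × List (ℕ × ℕ) => sol p.1.1 p.1.2 p.2

/-- **PtM** (the algorithm in polynomial time). Uses: CR.S_PtB, S_PtS. Proof. `comp`, `inn`, `stp` by `pt_tab`, `pt_filter`, `pt_mem`, `pt_ite`, `pt_min`, `pt_T`;
the fold as in CR/PtE.lean: the intermediate pairs are `(a list obtained by filters from verts A, tab (verts A) (min (wts A) ..))` or the
start. -/
def S_PtM : Prop := IsPolyTime alg

/-- The main theorem. -/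
def S_Main : Prop := CoversInP SepC

end Pool.Agent.Lib.MP_c29043_lc.SWC
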