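import Pool.Agent.Lib.MP_c29043_lc.SW.Hard3
import Pool.Agent.Lib.MP_c29043_lc.SW.Sharp
import Pool.Agent.Lib.MP_c29043_lc.SWC.Spec
import Pool.Agent.Lib.MP_c29043_lc.SWC.DefRC

/-!
# The factor two is the exact threshold; only arcs in the same strong component matter
-/

set_option autoImplicit false

open N68a2faeb N487b59b3 Pool.Agent.Lib.PolyTime

namespace Pool.Agent.Lib.MP_c29043_lc

theorem sepRC_sepC {r : ℝ} (hr : 2 ≤ r) {A : List ((ℕ × ℕ) × ℕ)} (h : SepRC r A) : SWC.SepC A := by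
  intro a ha b hb h1 h2 hab
  have h3 := h a ha b hb h1 h2 hab
  have h4 : (0 : ℝ) ≤ (a.2 : ℝ) := Nat.cast_nonneg _
  have h5 : 2 * (a.2 : ℝ) ≤ (b.2 : ℝ) := by nlinarith
  exact_mod_cast h5

/-- **The threshold.**  `hM` is the polynomial time algorithm for the factor two. -/
theorem sep_sharp3 (hM : SWC.S_Main) (r R : ℝ) :
    List.TFAE [CoversInP (SepRC r),
      CoversInP fun A => (A.map Prod.fst).Nodup ∧ Bipartite A ∧ InDegLeTwo A ∧ SepRR r R A,
      2 ≤ r ∨ GamesInP] := by
  tfae_have 1 → 2 := coversInP_mono fun A hA a ha b hb _ _ hab => hA.2.2.2.1 a ha b hb hab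
  tfae_have 2 → 3 := by
    intro h
    rcases le_or_gt 2 r with hr | hr
    · exact Or.inl hr
    · exact Or.inr (sep_hard3 hr h)
  tfae_have 3 → 1 := by
    rintro (hr | h)
    · exact coversInP_mono (fun A hA => sepRC_sepC hr hA) hM
    · exact coversInP_mono (fun A _ => trivial) (covers_of_games h)
  tfae_finish

end Pool.Agent.Lib.MP_c29043_lc
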