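import Pool.Agent.Lib.MP_c29043_lc.SWC.Spec

/-!
# SWC/Stg: a stage leads from the invariant of the width `lam` to the invariant of the width `m`
-/

set_option autoImplicit false

open N68a2faeb N487b59b3 Pool.Agent.Lib.PolyTime

namespace Pool.Agent.Lib.MP_c29043_lc.SWC

open Pool.Agent.Lib.MP_c29043_lc

private theorem Stg_anti (A : List ((ℕ × ℕ) × ℕ)) (b x y : ℕ → ℕ) (h : ∀ v, x v ≤ y v) (v : ℕ) :
    TB A b y v ≤ TB A b x v :=
  max_le_max le_rfl (T_anti h v)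

private theorem Stg_zero (A : List ((ℕ × ℕ) × ℕ)) (b L0 H0 L H : ℕ → ℕ) (hI : Inv A b 0 L0 H0)
    (hS : Stab A b 0 L0 H0 L H) : Inv A b 0 (nl 0 L0 H0 L H) (nh 0 L0 H0 L H) := by
  have hw : ∀ v, H0 v = L0 v := fun v => by
    rcases hI.width v with h | h
    · exact h
    · rw [h, Nat.add_zero]
  have hL : ∀ v, L v = L0 v := fun v => by
    have h1 := hS.fl v
    rw [hw v] at h1
    unfold dn at h1
    rw [if_pos le_rfl] at h1
    exact h1
  have hH : ∀ v, H v = L0 v := fun v => by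
    have h1 := hS.fh v
    rw [hw v] at h1
    unfold up at h1
    rw [if_pos le_rfl] at h1
    exact h1
  have e1 : nl 0 L0 H0 L H = L0 := by
    funext v
    unfold nl
    rw [if_pos (Or.inl (by rw [hH v, Nat.add_zero]))]
    exact hL v
  have e2 : nh 0 L0 H0 L H = H0 := by
    funext v
    unfold nh
    rw [if_pos (Or.inl (by rw [hH v, Nat.add_zero])), hH v, hw v]
  rw [e1, e2]
  exact hI

/-- Stg: the stage. -/
theorem tStg (h1 : S_Kin) (h2 : S_Mid) (h3 : S_Dis) : S_Stg := by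
  intro A b lam m L0 H0 L H hI hG hS
  rcases hG with hG | ⟨rfl, rfl⟩
  swap
  · exact Stg_zero A b L0 H0 L H hI hS
  have K := h1 A b lam m L0 H0 L H hI hG.lt hG.two hG.even hS
  have hlt := hG.lt
  have htwo := hG.two
  have hL0L : ∀ v, L0 v ≤ L v := fun v => by
    have e := hS.fl v
    have hw := hI.width v
    unfold dn at e
    split_ifs at e <;> omega
  have hM := h2 A b lam m L0 H0 L H hI hG K hL0L
  have hHH0 : ∀ v, H v ≤ H0 v := fun v => by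
    have e := hS.fh v
    have hw := hI.width v
    unfold up at e
    split_ifs at e <;> omega
  have hLn : ∀ v, L v ≤ nl m L0 H0 L H v := fun v => by
    rcases K v with ⟨h0, h1, h2, h3, h4⟩ | ⟨h0, h1, h2, h3, h4, h5⟩ |
      ⟨h0, h1, h2, h3, h4, h5⟩ | ⟨h, h0, h1, h2, h3, h4, h5, h6⟩ |
      ⟨h0, h1, h2, h3, h4, h5, h6, h7, h8, h9, h10, h11⟩
    · omega
    · omega
    · omega
    · omega
    · exact h8
  have hnH : ∀ v, nh m L0 H0 L H v ≤ H v := fun v => by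
    rcases K v with ⟨h0, h1, h2, h3, h4⟩ | ⟨h0, h1, h2, h3, h4, h5⟩ |
      ⟨h0, h1, h2, h3, h4, h5⟩ | ⟨h, h0, h1, h2, h3, h4, h5, h6⟩ |
      ⟨h0, h1, h2, h3, h4, h5, h6, h7, h8, h9, h10, h11⟩
    · omega
    · omega
    · omega
    · omega
    · rw [h4]
      exact h9
  refine ⟨hG.wt, fun v => ?_, fun v => ?_, fun v => ?_, ?_⟩
  · rcases K v with ⟨h0, h1, h2, h3, h4⟩ | ⟨h0, h1, h2, h3, h4, h5⟩ |
      ⟨h0, h1, h2, h3, h4, h5⟩ | ⟨h, h0, h1, h2, h3, h4, h5, h6⟩ |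
      ⟨h0, h1, h2, h3, h4, h5, h6, h7, h8, h9, h10, h11⟩
    · omega
    · omega
    · omega
    · omega
    · exact Or.inl h4
  · have t1 : TB A b (nl m L0 H0 L H) v ≤ TB A b L v := Stg_anti A b _ _ hLn v
    have t2 : TB A b L v ≤ TB A b L0 v := Stg_anti A b _ _ hL0L v
    have t3 : TB A b L0 v ≤ H0 v := hI.up v
    rcases K v with ⟨h0, h1, h2, h3, h4⟩ | ⟨h0, h1, h2, h3, h4, h5⟩ |
      ⟨h0, h1, h2, h3, h4, h5⟩ | ⟨h, h0, h1, h2, h3, h4, h5, h6⟩ |
      ⟨h0, h1, h2, h3, h4, h5, h6, h7, h8, h9, h10, h11⟩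
    · omega
    · omega
    · omega
    · omega
    · rw [h4]
      exact (hM v h0 h1 h2).1
  · have t1 : TB A b H v ≤ TB A b (nh m L0 H0 L H) v := Stg_anti A b _ _ hnH v
    have t2 : TB A b H0 v ≤ TB A b H v := Stg_anti A b _ _ hHH0 v
    have t3 : L0 v ≤ TB A b H0 v := hI.low v
    rcases K v with ⟨h0, h1, h2, h3, h4⟩ | ⟨h0, h1, h2, h3, h4, h5⟩ |
      ⟨h0, h1, h2, h3, h4, h5⟩ | ⟨h, h0, h1, h2, h3, h4, h5, h6⟩ |
      ⟨h0, h1, h2, h3, h4, h5, h6, h7, h8, h9, h10, h11⟩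
    · omega
    · omega
    · omega
    · omega
    · exact (hM v h0 h1 h2).2
  · exact h3 A b lam m L0 H0 L H hI hG K (fun v g0 g1 g2 => (hM v g0 g1 g2).1)

end Pool.Agent.Lib.MP_c29043_lc.SWC
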